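import Mathlib.Combinatorics.SimpleGraph.Acyclic
import Mathlib.Computability.TuringMachine.Computable

/-!
Book thickness, tree and path decompositions, and polynomial-time computation of book thickness
on a class of graphs.
-/

set_option autoImplicit false

namespace Pool.Agent.MP_cfb5a8_lc

/-- `G` has a `k`-page book embedding: a linear order of the vertices (given by an injective
position map) and a page `< k` for each edge, such that crossing edges are on different pages. -/
def HasBook {V : Type} (G : SimpleGraph V) (k : ℕ) : Prop :=
  ∃ (ord : V → ℕ) (page : Sym2 V → ℕ), Function.Injective ord ∧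
    (∀ v w, G.Adj v w → page s(v, w) < k) ∧
    ∀ v w x y, G.Adj v w → G.Adj x y → ord v < ord x → ord x < ord w → ord w < ord y →
      page s(v, w) ≠ page s(x, y)

/-- The book thickness: the least number of pages of a book embedding. -/
noncomputable def bookThickness {V : Type} (G : SimpleGraph V) : ℕ := sInf {k | HasBook G k}

/-- `G` has a decomposition of width at most `k` along the graph `T`. -/
def HasDecomp {V ι : Type} (G : SimpleGraph V) (T : SimpleGraph ι) (k : ℕ) : Prop :=
  ∃ B : ι → Finset V, (∀ i, (B i).card ≤ k + 1) ∧
    (∀ v w, G.Adj v w → ∃ i, v ∈ B i ∧ w ∈ B i) ∧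
    ∀ v, (T.induce {i | v ∈ B i}).Connected

/-- Treewidth at most `k`. -/
def TreewidthLE {V : Type} (G : SimpleGraph V) (k : ℕ) : Prop :=
  ∃ (m : ℕ) (T : SimpleGraph (Fin m)), T.IsTree ∧ HasDecomp G T k

/-- Pathwidth at most `k`. -/
def PathwidthLE {V : Type} (G : SimpleGraph V) (k : ℕ) : Prop :=
  ∃ m : ℕ, HasDecomp G (SimpleGraph.pathGraph (m + 1)) k

open Classical in
/-- The adjacency matrix, row after row. -/
noncomputable def adjCode {n : ℕ} (G : SimpleGraph (Fin n)) : List Bool :=
  (List.finRange n).flatMap fun i => (List.finRange n).map fun j => decide (G.Adj i j)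

/-- One Turing machine computes the book thickness (in binary) from the adjacency matrix in
polynomial time on all graphs of the class `C`. -/
def PolyTimeOn (C : ∀ n : ℕ, SimpleGraph (Fin n) → Prop) : Prop :=
  Nonempty (Turing.TM2ComputableInPolyTime
    (fun G : {G : Σ n : ℕ, SimpleGraph (Fin n) // C G.1 G.2} => adjCode G.1.2)
    Computability.encodeNat (fun G => bookThickness G.1.2))

end Pool.Agent.MP_cfb5a8_lc
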