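import Mathlib
import Pool.Agent.MP_cfb5a8_lc.Defs
import Pool.Agent.Lib.helper82.CookLevin
import Pool.Agent.Lib.helper82.PolyFun

-- ======== part 0: formerly Pool.Agent.MP_cfb5a8_lc.Gadget
section MrgPart0

/-!
The gadget: a graph whose vertices carry sets of transparent pages.  A layout is a linear order
with a page label on each edge such that edges pass only over vertices transparent for their
label and equally labelled edges do not cross.  A layout exists iff a monotone formula is
satisfiable.  This file: definitions and the direction from layouts to assignments.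
-/

set_option autoImplicit false

namespace Pool.Agent.MP_cfb5a8_lc

/-- Vertices of the gadget. -/
inductive HV : Type
  | w : HV
  | g : HV
  | h : HV
  | s : ℕ → HV
  | z : ℕ → HV
  | x : ℕ → ℕ → HV
  deriving DecidableEq

/-- Data of an instance: `n` literal strands, `T` layers, and the tested strands. -/
structure Inst : Type where
  n : ℕ
  T : ℕ
  f : ℕ → ℕ → ℕ

open HV

/-- The vertices that belong to the gadget of `I`. -/
def valid (I : Inst) : HV → Prop
  | w => True
  | g => True
  | h => True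
  | s t => t ≤ I.T
  | z t => t < I.T
  | x c t => c < I.n + 3 ∧ t < I.T

/-- The edges, each listed in one direction. -/
def E : HV → HV → Prop
  | w, g => True
  | w, h => True
  | w, s t => t = 0
  | g, h => True
  | h, s t => t = 0
  | h, x _ t => t = 0
  | s t, z u => u = t
  | z t, s u => u = t + 1
  | x c t, x d u => d = c ∧ u = t + 1
  | _, _ => False

/-- The transparent pages of a vertex. -/
def tau (I : Inst) : HV → ℕ → Prop
  | w, _ => False
  | g, p => p = 12
  | h, p => p = 12
  | s t, p => p = t % 4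
  | z t, p => p = t % 4 ∨ p = (t + 1) % 4
  | x c t, p =>
    if c < 2 then
      if (c + t) % 2 = 0 then p = t % 4 ∨ p = 4 + 4 * (t % 2)
      else p = (t + 1) % 4 ∨ p = 5 + 4 * (t % 2) ∨ p = 6 + 4 * (t % 2) ∨ p = 7 + 4 * (t % 2)
    else p = t % 4 ∨ p = (t + 1) % 4 ∨ (p = 4 + 4 * (t % 2) ∧ c ≠ 2) ∨
      (p = 5 + 4 * (t % 2) ∧ c ≠ I.f t 1 + 3) ∨ (p = 6 + 4 * (t % 2) ∧ c ≠ I.f t 2 + 3) ∨
      (p = 7 + 4 * (t % 2) ∧ c ≠ I.f t 3 + 3)

/-- `v` lies strictly between `a` and `b`. -/
def Btw (a v b : ℤ) : Prop := (a < v ∧ v < b) ∨ (b < v ∧ v < a)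

/-- `v` lies strictly outside the closed interval spanned by `a` and `b`. -/
def Out (a v b : ℤ) : Prop := (v < a ∧ v < b) ∨ (a < v ∧ b < v)

/-- The chords `a b` and `c d` cross. -/
def Cross (a b c d : ℤ) : Prop := (Btw a c b ∧ Out a d b) ∨ (Btw a d b ∧ Out a c b)

/-- An edge of the gadget of `I`. -/
def Ed (I : Inst) (a b : HV) : Prop := valid I a ∧ valid I b ∧ E a b

/-- Layouts of the gadget. -/
structure IsLayout (I : Inst) (pos : HV → ℤ) (lab : HV → HV → ℕ) : Prop where
  inj : ∀ u v, valid I u → valid I v → pos u = pos v → u = v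
  tr : ∀ a b v, Ed I a b → valid I v → Btw (pos a) (pos v) (pos b) → tau I v (lab a b)
  nc : ∀ a b c d, Ed I a b → Ed I c d → Cross (pos a) (pos b) (pos c) (pos d) → lab a b ≠ lab c d

/-- The assignment `b` passes the test of layer `t`. -/
def Pass (I : Inst) (b : ℕ → Bool) (t : ℕ) : Prop :=
  ∃ i, 1 ≤ i ∧ i ≤ 3 ∧ (I.n ≤ I.f t i ∨ b (I.f t i) = decide (t % 2 = 0))

theorem IsLayout.neg {I : Inst} {pos : HV → ℤ} {lab : HV → HV → ℕ} (L : IsLayout I pos lab) :
    IsLayout I (fun v => -pos v) lab where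
  inj u v hu hv h := L.inj u v hu hv (neg_injective h)
  tr a b v e hv h := L.tr a b v e hv (by unfold Btw at *; omega)
  nc a b c d e e' h := L.nc a b c d e e' (by unfold Cross Btw Out at *; omega)

/-- The vertex before `x c t` on its strand. -/
def X (c : ℕ) : ℕ → HV
  | 0 => h
  | t + 1 => x c t

section Edges

variable {I : Inst}

theorem ed_sz {t : ℕ} (ht : t < I.T) : Ed I (s t) (z t) := ⟨ht.le, ht, rfl⟩

theorem ed_zs {t : ℕ} (ht : t < I.T) : Ed I (z t) (s (t + 1)) := ⟨ht, ht, rfl⟩

theorem ed_xx {c t : ℕ} (hc : c < I.n + 3) (ht : t + 1 < I.T) : Ed I (x c t) (x c (t + 1)) :=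
  ⟨⟨hc, by omega⟩, ⟨hc, ht⟩, rfl, rfl⟩

theorem ed_X {c t : ℕ} (hc : c < I.n + 3) (ht : t < I.T) : Ed I (X c t) (x c t) := by
  cases t with
  | zero => exact ⟨trivial, ⟨hc, ht⟩, rfl⟩
  | succ t => exact ed_xx hc ht

end Edges

namespace IsLayout

variable {I : Inst} {pos : HV → ℤ} {lab : HV → HV → ℕ} (L : IsLayout I pos lab)
include L

theorem ne {u v : HV} (hu : valid I u) (hv : valid I v) (h : u ≠ v) : pos u ≠ pos v :=
  fun e => h (L.inj u v hu hv e)

theorem over_s {a b : HV} (e : Ed I a b) {j : ℕ} (hj : j ≤ I.T)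
    (h : Btw (pos a) (pos (s j)) (pos b)) : lab a b = j % 4 := L.tr a b (s j) e hj h

theorem over_l {a b : HV} (e : Ed I a b) {c j : ℕ} (hj : j < I.T) (hc : c < 2)
    (hp : (c + j) % 2 = 0) (h : Btw (pos a) (pos (x c j)) (pos b)) :
    lab a b = j % 4 ∨ lab a b = 4 + 4 * (j % 2) := by
  have := L.tr a b (x c j) e ⟨by omega, hj⟩ h
  simpa only [tau, if_pos hc, if_pos hp] using this

theorem over_r {a b : HV} (e : Ed I a b) {c j : ℕ} (hj : j < I.T) (hc : c < 2)
    (hp : (c + j) % 2 = 1) (h : Btw (pos a) (pos (x c j)) (pos b)) :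
    lab a b = (j + 1) % 4 ∨ lab a b = 5 + 4 * (j % 2) ∨ lab a b = 6 + 4 * (j % 2) ∨
      lab a b = 7 + 4 * (j % 2) := by
  have := L.tr a b (x c j) e ⟨by omega, hj⟩ h
  simpa only [tau, if_pos hc, if_neg (show ¬ (c + j) % 2 = 0 by omega)] using this

omit L in
theorem tau_x {c j p : ℕ} (h : tau I (x c j) p) :
    p = j % 4 ∨ p = (j + 1) % 4 ∨ (4 + 4 * (j % 2) ≤ p ∧ p ≤ 7 + 4 * (j % 2)) := by
  simp only [tau] at h
  split_ifs at h <;> omega

omit L in
theorem tau_r {c j p : ℕ} (hc : c < 2) (hp : (c + j) % 2 = 1) (h : tau I (x c j) p) :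
    p = (j + 1) % 4 ∨ 4 ≤ p := by
  simp only [tau, if_pos hc, if_neg (show ¬ (c + j) % 2 = 0 by omega)] at h
  omega

theorem side {a b : HV} (e : Ed I a b) (ha : a ≠ w) (hb : b ≠ w) (h : pos w < pos a) :
    pos w < pos b := by
  have h1 := L.ne e.2.1 (show valid I w from trivial) hb
  by_contra h2
  exact L.tr a b w e trivial (by unfold Btw; omega)

theorem side' {a b : HV} (e : Ed I a b) (ha : a ≠ w) (h : pos w < pos b) :
    pos w < pos a := by
  have h1 := L.ne e.1 (show valid I w from trivial) ha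
  by_contra h2
  exact L.tr a b w e trivial (by unfold Btw; omega)

theorem right_s (h0 : pos w < pos h) {t : ℕ} (ht : t ≤ I.T) : pos w < pos (s t) := by
  induction t with
  | zero => exact L.side (a := h) ⟨trivial, ht, rfl⟩ (by simp) (by simp) h0
  | succ t ih =>
    exact L.side (ed_zs ht) (by simp) (by simp) (L.side (ed_sz ht) (by simp) (by simp) (ih (by omega)))

theorem right_z (h0 : pos w < pos h) {t : ℕ} (ht : t < I.T) : pos w < pos (z t) :=
  L.side (ed_sz ht) (by simp) (by simp) (L.right_s h0 ht.le)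

theorem right_x (h0 : pos w < pos h) {c t : ℕ} (hc : c < I.n + 3) (ht : t < I.T) :
    pos w < pos (x c t) := by
  induction t with
  | zero => exact L.side (a := h) ⟨trivial, ⟨hc, ht⟩, rfl⟩ (by simp) (by simp) h0
  | succ t ih => exact L.side (ed_xx hc ht) (by simp) (by simp) (ih (by omega))

theorem base (h0 : pos w < pos h) : pos h < pos (s 0) ∧ lab w (s 0) = 12 := by
  have vs : valid I (s 0) := Nat.zero_le _
  have hg : pos w < pos g := L.side' (b := h) ⟨trivial, trivial, trivial⟩ (by simp) h0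
  have hs := L.right_s h0 (Nat.zero_le _)
  have n1 := L.ne (u := g) (v := h) trivial trivial (by simp)
  have n2 := L.ne (u := g) (v := s 0) trivial vs (by simp)
  have n3 := L.ne (u := h) (v := s 0) trivial vs (by simp)
  have e1 : Ed I w g := ⟨trivial, trivial, trivial⟩
  have e2 : Ed I w h := ⟨trivial, trivial, trivial⟩
  have e3 : Ed I w (s 0) := ⟨trivial, vs, rfl⟩
  have a1 := L.tr w g h e1 trivial
  have a2 := L.tr w g (s 0) e1 vs
  have a3 := L.tr w h g e2 trivial
  have a4 := L.tr w h (s 0) e2 vs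
  have a5 := L.tr w (s 0) h e3 trivial
  simp only [tau, Btw] at a1 a2 a3 a4 a5
  omega

theorem above (h0 : pos w < pos h) {v : HV} (hv : valid I v) (h1 : pos w < pos v) (h2 : v ≠ s 0)
    (h3 : ¬ tau I v 12) : pos (s 0) < pos v := by
  have n := L.ne hv (show valid I (s 0) from Nat.zero_le _) h2
  have a := L.tr w (s 0) v ⟨trivial, Nat.zero_le _, rfl⟩ hv
  rw [(L.base h0).2] at a
  by_contra h4
  exact h3 (a (by unfold Btw; omega))

theorem above_s (h0 : pos w < pos h) {t : ℕ} (ht : t + 1 ≤ I.T) : pos (s 0) < pos (s (t + 1)) :=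
  L.above h0 ht (L.right_s h0 ht) (by simp) (by simp only [tau]; omega)

theorem above_x (h0 : pos w < pos h) {c t : ℕ} (hc : c < I.n + 3) (ht : t < I.T) :
    pos (s 0) < pos (x c t) :=
  L.above h0 ⟨hc, ht⟩ (L.right_x h0 hc ht) (by simp) (fun h => by have := tau_x h; omega)

end IsLayout

/-- The layers before `t` are in place, and layer `t` lies beyond the separator `s t`. -/
structure Inv (I : Inst) (pos : HV → ℤ) (t : ℕ) : Prop where
  hs : pos h < pos (s 0)
  sx : ∀ j ≤ t, ∀ c < I.n + 3, pos (s j) < pos (x c j)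
  xs : ∀ j < t, ∀ c < I.n + 3, pos (x c j) < pos (s (j + 1))
  sz : ∀ j < t, ∀ c < 2, (c + j) % 2 = 0 → pos (x c j) < pos (z j)
  zs : ∀ j < t, ∀ c < 2, (c + j) % 2 = 1 → pos (z j) < pos (x c j)

namespace IsLayout

variable {I : Inst} {pos : HV → ℤ} {lab : HV → HV → ℕ} (L : IsLayout I pos lab)
  {t : ℕ} (J : Inv I pos t) (ht : t < I.T)
include L J ht

omit L ht in
theorem X_lt {c j : ℕ} (hc : c < I.n + 3) (hj : j ≤ t) : pos (X c j) < pos (s j) := by
  cases j with
  | zero => exact J.hs
  | succ j => exact J.xs j hj c hc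

theorem lab_X {c j : ℕ} (hc : c < I.n + 3) (hj : j ≤ t) : lab (X c j) (x c j) = j % 4 :=
  L.over_s (ed_X hc (by omega)) (by omega) (Or.inl ⟨X_lt J hc hj, J.sx j hj c hc⟩)

theorem le_r {c d j : ℕ} (hc : c < I.n + 3) (hj : j ≤ t) (hd : d < 2) (hp : (d + j) % 2 = 1) :
    pos (x c j) ≤ pos (x d j) := by
  by_contra h1
  have h2 := X_lt J hc hj
  have h3 := J.sx j hj d (by omega)
  have h4 := L.over_r (ed_X hc (by omega : j < I.T)) (by omega : j < I.T) hd hp
    (by unfold Btw; omega)
  rw [L.lab_X J ht hc hj] at h4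
  omega

theorem lt_r {c d j : ℕ} (hc : c < I.n + 3) (hj : j ≤ t) (hd : d < 2) (hp : (d + j) % 2 = 1)
    (hne : c ≠ d) : pos (x c j) < pos (x d j) :=
  lt_of_le_of_ne (L.le_r J ht hc hj hd hp)
    (L.ne ⟨hc, by omega⟩ ⟨by omega, by omega⟩ (by simp [hne]))

theorem cover {v : HV} (hv : valid I v) {i : ℕ} (h1 : pos (s i) < pos v) (j : ℕ) (hij : i ≤ j)
    (hj : j ≤ t) (d : ℕ) (hd : d < 2) (hp : (d + j) % 2 = 1) (h2 : pos v < pos (x d j)) :
    ∃ i', i ≤ i' ∧ i' ≤ j ∧ tau I v (i' % 4) := by
  induction j, hij using Nat.le_induction generalizing d with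
  | base =>
    refine ⟨i, le_rfl, le_rfl, ?_⟩
    have h3 := X_lt J (c := d) (by omega) hj
    rw [← L.lab_X J ht (c := d) (by omega) hj]
    exact L.tr _ _ v (ed_X (by omega) (by omega)) hv (by unfold Btw; omega)
  | succ j hij ih =>
    by_cases h3 : pos (x d j) < pos v
    · refine ⟨j + 1, by omega, le_rfl, ?_⟩
      rw [← L.lab_X J ht (c := d) (by omega) hj]
      exact L.tr _ _ v (ed_X (by omega) (by omega)) hv (Or.inl ⟨h3, h2⟩)
    · have h4 := L.lt_r J ht (c := d) (d := 1 - d) (j := j) (by omega) (by omega) (by omega)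
        (by omega) (by omega)
      obtain ⟨i', a1, a2, a3⟩ := ih (by omega) (1 - d) (by omega) (by omega) (by omega)
      exact ⟨i', a1, by omega, a3⟩

/-- No edge passes over both the separator and the last vertex of a layer. -/
theorem no_pass {a b : HV} (e : Ed I a b) {j d : ℕ} (hj : j ≤ t) (hd : d < 2)
    (hp : (d + j) % 2 = 1) (h : (pos a < pos (s j) ∧ pos (x d j) < pos b) ∨
      (pos b < pos (s j) ∧ pos (x d j) < pos a)) : False := by
  have h1 := J.sx j hj d (by omega)
  have h2 := L.over_s e (j := j) (by omega) (by unfold Btw; omega)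
  have h3 := L.over_r e (j := j) (by omega) hd hp (by unfold Btw; omega)
  omega

end IsLayout

namespace IsLayout

variable {I : Inst} {pos : HV → ℤ} {lab : HV → HV → ℕ} (L : IsLayout I pos lab)
include L

theorem step (h0 : pos w < pos h) {t : ℕ} (J : Inv I pos t) (ht : t + 2 < I.T) :
    Inv I pos (t + 1) := by
  have ht0 : t < I.T := by omega
  obtain ⟨a, ha, ha'⟩ : ∃ a < 2, (a + t) % 2 = 0 := ⟨t % 2, by omega, by omega⟩
  obtain ⟨b, hb, hb'⟩ : ∃ b < 2, (b + t) % 2 = 1 := ⟨(t + 1) % 2, by omega, by omega⟩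
  have sa := J.sx t le_rfl a (by omega)
  have ab := L.lt_r J ht0 (c := a) (d := b) (j := t) (by omega) le_rfl hb hb' (by omega)
  -- the next separator lies beyond the last vertex of the layer
  have hz1 : ∀ u, t = u + 1 → pos (s u) < pos (z t) := by
    intro u hu
    have n := L.ne (u := s u) (v := z t) (show u ≤ I.T by omega) ht0 (by simp)
    have h1 := J.xs u (by omega) a (by omega)
    rw [← hu] at h1
    by_contra h2
    exact L.no_pass J ht0 (ed_sz ht0) (j := u) (d := a) (by omega) ha (by omega) (by omega)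
  have hs1 : pos (s (t - 2)) < pos (s (t + 1)) := by
    rcases Nat.lt_or_ge t 2 with h1 | h1
    · rw [show t - 2 = 0 by omega]
      exact L.above_s h0 (by omega)
    · have n := L.ne (u := s (t - 2)) (v := s (t + 1)) (show t - 2 ≤ I.T by omega)
        (show t + 1 ≤ I.T by omega) (by simp; omega)
      have h2 := hz1 (t - 2 + 1) (by omega)
      have h3 := J.xs (t - 2) (by omega) b (by omega)
      by_contra h4
      exact L.no_pass J ht0 (ed_zs ht0) (j := t - 2) (d := b) (by omega) hb (by omega) (by omega)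
  have bs : pos (x b t) < pos (s (t + 1)) := by
    have n := L.ne (u := s (t + 1)) (v := x b t) (show t + 1 ≤ I.T by omega) ⟨by omega, ht0⟩
      (by simp)
    by_contra h1
    obtain ⟨i', a1, a2, a3⟩ := L.cover J ht0 (v := s (t + 1)) (show t + 1 ≤ I.T by omega) hs1 t
      (by omega) le_rfl b hb hb' (by omega)
    simp only [tau] at a3
    omega
  have az : pos (x a t) < pos (z t) := by
    have n := L.ne (u := z t) (v := x a t) ht0 ⟨by omega, ht0⟩ (by simp)
    by_contra h1
    have h2 := L.over_l (ed_zs ht0) ht0 ha ha' (by unfold Btw; omega)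
    have h3 := L.over_r (ed_zs ht0) ht0 hb hb' (by unfold Btw; omega)
    omega
  have zb : pos (z t) < pos (x b t) := by
    have n := L.ne (u := z t) (v := x b t) ht0 ⟨by omega, ht0⟩ (by simp)
    by_contra h1
    have h2 := L.over_l (ed_sz ht0) ht0 ha ha' (by unfold Btw; omega)
    have h3 := L.over_r (ed_sz ht0) ht0 hb hb' (by unfold Btw; omega)
    omega
  have bx : ∀ c < I.n + 3, pos (x b t) < pos (x c (t + 1)) := by
    intro c hc
    have v1 : valid I (x c (t + 1)) := ⟨hc, by omega⟩
    have h1 : pos (s (t - 1)) < pos (x c (t + 1)) := by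
      rcases Nat.eq_zero_or_pos t with h1 | h1
      · rw [show t - 1 = 0 by omega]
        exact L.above_x h0 hc (by omega)
      · have n := L.ne (u := s (t - 1)) (show t - 1 ≤ I.T by omega) v1 (by simp)
        have h2 := J.xs (t - 1) (by omega) a (by omega)
        rw [show t - 1 + 1 = t by omega] at h2
        have h3 := J.sx t le_rfl c hc
        by_contra h4
        exact L.no_pass J ht0 (ed_xx hc (by omega : t + 1 < I.T)) (j := t - 1) (d := a) (by omega)
          ha (by omega) (by omega)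
    have n := L.ne (v := x b t) v1 ⟨by omega, ht0⟩ (by simp)
    by_contra h2
    obtain ⟨i', a1, a2, a3⟩ := L.cover J ht0 v1 h1 t (by omega) le_rfl b hb hb' (by omega)
    have := tau_x a3
    omega
  have sx' : ∀ c < I.n + 3, pos (s (t + 1)) < pos (x c (t + 1)) := by
    intro c hc
    have vs : valid I (s (t + 1)) := show t + 1 ≤ I.T by omega
    have v1 : valid I (x c (t + 1)) := ⟨hc, by omega⟩
    have n := L.ne vs v1 (by simp)
    by_contra h1
    have h2 := bx c hc
    have h3 := L.over_r (ed_zs ht0) ht0 hb hb' (by unfold Btw; omega)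
    have h4 := tau_x (L.tr _ _ _ (ed_zs ht0) v1 (by unfold Btw; omega))
    have h5 : lab (z t) (s (t + 1)) = (t + 1) % 4 := by omega
    have h6 := bx b (by omega)
    have v2 : valid I (x b (t + 1)) := ⟨by omega, by omega⟩
    have v3 : valid I (x b (t + 1 + 1)) := ⟨by omega, by omega⟩
    have e1 : Ed I (x b t) (x b (t + 1)) := ed_xx (by omega) (by omega)
    have e2 : Ed I (x b (t + 1)) (x b (t + 1 + 1)) := ed_xx (by omega) (by omega)
    have h7 : pos (x b (t + 1)) < pos (s (t + 1)) := by
      have n := L.ne vs v2 (by simp)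
      by_contra h7
      have h8 := L.over_s e1 vs (by unfold Btw; omega)
      exact L.nc _ _ _ _ (ed_zs ht0) e1 (by unfold Cross Btw Out; omega) (by omega)
    have n1 := L.ne vs v3 (by simp)
    have n2 := L.ne (u := z t) ht0 v3 (by simp)
    have n3 := L.ne (u := s t) ht0.le v3 (by simp)
    by_cases c1 : pos (s (t + 1)) < pos (x b (t + 1 + 1))
    · have h8 := L.over_s e2 vs (by unfold Btw; omega)
      exact L.nc _ _ _ _ (ed_zs ht0) e2 (by unfold Cross Btw Out; omega) (by omega)
    · by_cases c2 : pos (z t) < pos (x b (t + 1 + 1))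
      · have h8 := tau_r hb (by omega) (L.tr _ _ _ (ed_zs ht0) v3 (by unfold Btw; omega))
        omega
      · by_cases c3 : pos (s t) < pos (x b (t + 1 + 1))
        · obtain ⟨i', a1, a2, a3⟩ := L.cover J ht0 v3 c3 t le_rfl le_rfl b hb hb' (by omega)
          have := tau_r hb (by omega) a3
          omega
        · exact L.no_pass J ht0 e2 (j := t) (d := b) le_rfl hb hb' (by omega)
  refine ⟨J.hs, fun j hj c hc => ?_, fun j hj c hc => ?_, fun j hj c hc hp => ?_,
    fun j hj c hc hp => ?_⟩
  · rcases Nat.lt_or_ge j (t + 1) with h1 | h1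
    · exact J.sx j (by omega) c hc
    · rw [show j = t + 1 by omega]; exact sx' c hc
  · rcases Nat.lt_or_ge j t with h1 | h1
    · exact J.xs j h1 c hc
    · rw [show j = t by omega]
      exact (L.le_r J ht0 hc le_rfl hb hb').trans_lt bs
  · rcases Nat.lt_or_ge j t with h1 | h1
    · exact J.sz j h1 c hc hp
    · obtain rfl : j = t := by omega
      rw [show c = a by omega]; exact az
  · rcases Nat.lt_or_ge j t with h1 | h1
    · exact J.zs j h1 c hc hp
    · obtain rfl : j = t := by omega
      rw [show c = b by omega]; exact zb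

theorem inv (h0 : pos w < pos h) (t : ℕ) (ht : t + 1 < I.T) : Inv I pos t := by
  induction t with
  | zero =>
    exact ⟨(L.base h0).1, fun j hj c hc => by
      rw [show j = 0 by omega]; exact L.above_x h0 hc (by omega),
      fun j hj => by omega, fun j hj => by omega, fun j hj => by omega⟩
  | succ t ih => exact L.step h0 (ih (by omega)) ht

theorem order (h0 : pos w < pos h) {c d : ℕ} (hc : c < I.n + 3) (hd : d < I.n + 3) (hcd : c ≠ d)
    (j : ℕ) (hj : j + 1 < I.T) :
    pos (x c j) < pos (x d j) ↔ (decide (pos (x c 0) < pos (x d 0)) = decide (j % 2 = 0)) := by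
  induction j with
  | zero => simp
  | succ j ih =>
    have J := L.inv h0 (j + 1) hj
    have ih := ih (by omega)
    have e1 : Ed I (x c j) (x c (j + 1)) := ed_xx hc (by omega)
    have e2 : Ed I (x d j) (x d (j + 1)) := ed_xx hd (by omega)
    have l1 : lab (x c j) (x c (j + 1)) = (j + 1) % 4 := L.lab_X J (by omega) hc le_rfl
    have l2 : lab (x d j) (x d (j + 1)) = (j + 1) % 4 := L.lab_X J (by omega) hd le_rfl
    have nc : ¬ Cross _ _ _ _ := fun h => L.nc _ _ _ _ e1 e2 h (by omega)
    have a1 := J.xs j (by omega) c hc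
    have a2 := J.xs j (by omega) d hd
    have a3 := J.sx (j + 1) le_rfl c hc
    have a4 := J.sx (j + 1) le_rfl d hd
    have n1 := L.ne e1.1 e2.1 (by simp [hcd])
    have n2 := L.ne e1.2.1 e2.2.1 (by simp [hcd])
    unfold Cross Btw Out at nc
    simp only [decide_eq_decide] at ih ⊢
    omega

theorem pass (h0 : pos w < pos h) (j : ℕ) (hj : j + 2 < I.T) :
    Pass I (fun o => decide (pos (x (o + 3) 0) < pos (x 2 0))) j := by
  have J := L.inv h0 (j + 1) hj
  have ht0 : j < I.T := by omega
  obtain ⟨a, ha, ha'⟩ : ∃ a < 2, (a + j) % 2 = 0 := ⟨j % 2, by omega, by omega⟩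
  obtain ⟨b, hb, hb'⟩ : ∃ b < 2, (b + j) % 2 = 1 := ⟨(j + 1) % 2, by omega, by omega⟩
  have sa := J.sx j (by omega) a (by omega)
  have az := J.sz j (by omega) a ha ha'
  have zb := J.zs j (by omega) b hb hb'
  have bs := J.xs j (by omega) b (by omega)
  have l1 : lab (s j) (z j) = 4 + 4 * (j % 2) := by
    have h1 := L.over_l (ed_sz ht0) ht0 ha ha' (by unfold Btw; omega)
    have h2 := X_lt J (c := a) (j := j) (by omega) (by omega)
    have h3 := L.lab_X J (by omega) (c := a) (j := j) (by omega) (by omega)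
    have h4 := L.nc _ _ _ _ (ed_sz ht0) (ed_X (c := a) (by omega) ht0)
      (by unfold Cross Btw Out; omega)
    omega
  have zm : pos (z j) < pos (x 2 j) := by
    have v : valid I (x 2 j) := ⟨by omega, ht0⟩
    have n := L.ne (u := z j) ht0 v (by simp)
    have h1 := J.sx j (by omega) 2 (by omega)
    by_contra h2
    have h3 := L.tr _ _ _ (ed_sz ht0) v (by unfold Btw; omega)
    rw [l1] at h3
    simp only [tau, lt_irrefl, if_false] at h3
    omega
  have l2 : ∃ i, 1 ≤ i ∧ i ≤ 3 ∧ lab (z j) (s (j + 1)) = 4 + i + 4 * (j % 2) := by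
    have h1 := L.over_r (ed_zs ht0) ht0 hb hb' (by unfold Btw; omega)
    have h2 := J.sx (j + 1) le_rfl b (by omega)
    have h3 : lab (x b j) (x b (j + 1)) = (j + 1) % 4 :=
      L.lab_X J (by omega) (c := b) (j := j + 1) (by omega) le_rfl
    have h4 := L.nc _ _ _ _ (ed_zs ht0) (ed_xx (c := b) (t := j) (by omega) (by omega))
      (by unfold Cross Btw Out; omega)
    exact ⟨lab (z j) (s (j + 1)) - 4 - 4 * (j % 2), by omega, by omega, by omega⟩
  obtain ⟨i, i1, i3, l2⟩ := l2
  refine ⟨i, i1, i3, ?_⟩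
  rcases Nat.lt_or_ge (I.f j i) I.n with hn | hn
  · right
    have v : valid I (x (I.f j i + 3) j) := ⟨by omega, ht0⟩
    have n := L.ne (u := z j) ht0 v (by simp)
    have h1 := J.xs j (by omega) (I.f j i + 3) (by omega)
    have h2 : pos (x (I.f j i + 3) j) < pos (z j) := by
      by_contra h2
      have h3 := L.tr _ _ _ (ed_zs ht0) v (by unfold Btw; omega)
      rw [l2] at h3
      simp only [tau, if_neg (show ¬ I.f j i + 3 < 2 by omega)] at h3
      obtain rfl | rfl | rfl : i = 1 ∨ i = 2 ∨ i = 3 := by omega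
      all_goals omega
    exact (L.order h0 (c := I.f j i + 3) (d := 2) (by omega) (by omega) (by omega) j
      (by omega)).1 (by omega)
  · exact Or.inl hn

theorem sat : ∃ b : ℕ → Bool, ∀ j, j + 2 < I.T → Pass I b j := by
  have n := L.ne (u := w) (v := h) trivial trivial (by simp)
  rcases lt_or_gt_of_ne n with h0 | h0
  · exact ⟨_, L.pass h0⟩
  · exact ⟨_, L.neg.pass (by simpa using h0)⟩

end IsLayout

end Pool.Agent.MP_cfb5a8_lc

end MrgPart0

-- ======== part 1: formerly Pool.Agent.MP_cfb5a8_lc.General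
section MrgPart1

/-!
General facts on book embeddings and path decompositions of graphs given by a list of vertices.
-/

set_option autoImplicit false

namespace Pool.Agent.MP_cfb5a8_lc

open SimpleGraph Function

theorem pathGraph_isTree (m : ℕ) : (pathGraph (m + 1)).IsTree := by
  refine ⟨pathGraph_connected m, ?_⟩
  have key : ∀ v w : Fin (m + 1), v.val + 1 = w.val → (pathGraph (m + 1)).IsBridge s(v, w) := by
    intro v w h
    rw [isBridge_iff, reachable_iff_reflTransGen]
    intro hr
    have : ∀ u, Relation.ReflTransGen ((pathGraph (m + 1)).deleteEdges {s(v, w)}).Adj v u →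
        u.val ≤ v.val := by
      intro u hu
      induction hu with
      | refl => exact le_rfl
      | tail _ h2 ih =>
        rename_i a b _
        rw [deleteEdges_adj, pathGraph_adj, Set.mem_singleton_iff] at h2
        by_contra h3
        refine h2.2 ?_
        rw [show a = v from Fin.ext (by omega), show b = w from Fin.ext (by omega)]
    have := this w hr
    omega
  rw [isAcyclic_iff_forall_adj_isBridge]
  intro v w h
  rcases pathGraph_adj.1 h with h | h
  · exact key v w h
  · rw [Sym2.eq_swap]; exact key w v h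

theorem PathwidthLE.treewidthLE {V : Type} {G : SimpleGraph V} {k : ℕ} (h : PathwidthLE G k) :
    TreewidthLE G k := by
  obtain ⟨m, h⟩ := h
  exact ⟨m + 1, _, pathGraph_isTree m, h⟩

theorem interval_connected {m a b : ℕ} (hab : a ≤ b) (ham : a ≤ m) (S : Set (Fin (m + 1)))
    (hS : ∀ i, i ∈ S ↔ a ≤ i.val ∧ i.val ≤ b) : ((pathGraph (m + 1)).induce S).Connected := by
  have h0 : (⟨a, by omega⟩ : Fin (m + 1)) ∈ S := (hS _).2 ⟨le_rfl, hab⟩
  have key : ∀ d (i : S), i.1.val = a + d → ((pathGraph (m + 1)).induce S).Reachable ⟨_, h0⟩ i := by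
    intro d
    induction d with
    | zero => intro i hi; rw [show i = ⟨_, h0⟩ from Subtype.ext (Fin.ext hi)]
    | succ d ih =>
      intro i hi
      have h1 := (hS _).1 i.2
      have h2 := i.1.2
      have h3 : (⟨a + d, by omega⟩ : Fin (m + 1)) ∈ S := (hS _).2 ⟨by simp, by simp; omega⟩
      refine (ih ⟨_, h3⟩ rfl).trans (Adj.reachable ?_)
      exact pathGraph_adj.2 (Or.inl (by simp; omega))
  have : Nonempty S := ⟨⟨_, h0⟩⟩
  refine ⟨fun i j => ?_⟩
  have h1 := (hS _).1 i.2
  have h2 := (hS _).1 j.2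
  exact (key (i.1.val - a) i (by omega)).symm.trans (key (j.1.val - a) j (by omega))

/-- The graph induced on a list of vertices, with vertices renamed by their positions. -/
def listGraph {V : Type} (G : SimpleGraph V) (l : List V) : SimpleGraph (Fin l.length) :=
  G.comap l.get

theorem pathwidth_of_intervals {V : Type} (G : SimpleGraph V) {l : List V} (hl : l.Nodup)
    (lo hi : V → ℕ) (m k : ℕ) (h1 : ∀ v ∈ l, lo v ≤ hi v ∧ lo v ≤ m)
    (h2 : ∀ v ∈ l, ∀ w ∈ l, G.Adj v w → lo v ≤ hi w)
    (h3 : ∀ i, ∃ F : Finset V, F.card ≤ k + 1 ∧ ∀ v ∈ l, lo v ≤ i → i ≤ hi v → v ∈ F) :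
    PathwidthLE (listGraph G l) k := by
  refine ⟨m, fun i => Finset.univ.filter (fun j => lo (l.get j) ≤ i.val ∧ i.val ≤ hi (l.get j)),
    fun i => ?_, fun v w h => ?_, fun v => ?_⟩
  · obtain ⟨F, hF, h⟩ := h3 i
    refine le_trans (Finset.card_le_card_of_injOn l.get (fun j hj => ?_)
      (List.nodup_iff_injective_get.1 hl).injOn) hF
    have := (Finset.mem_filter.1 hj).2
    exact h _ (List.get_mem _ _) this.1 this.2
  · have a1 := h1 _ (List.get_mem l v)
    have a2 := h1 _ (List.get_mem l w)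
    have a3 := h2 _ (List.get_mem l v) _ (List.get_mem l w) h
    have a4 := h2 _ (List.get_mem l w) _ (List.get_mem l v) h.symm
    refine ⟨⟨max (lo (l.get v)) (lo (l.get w)), by omega⟩, ?_, ?_⟩ <;>
      simp only [Finset.mem_filter, Finset.mem_univ, true_and] <;> omega
  · have a1 := h1 _ (List.get_mem l v)
    exact interval_connected a1.1 a1.2 _ (fun i => by simp)

/-- A book embedding of the subgraph induced on `S`. -/
def BookOn {V : Type} (G : SimpleGraph V) (S : V → Prop) (k : ℕ) : Prop :=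
  ∃ (ord : V → ℕ) (page : Sym2 V → ℕ), (∀ u v, S u → S v → ord u = ord v → u = v) ∧
    (∀ v w, S v → S w → G.Adj v w → page s(v, w) < k) ∧
    ∀ v w x y, S v → S w → S x → S y → G.Adj v w → G.Adj x y → ord v < ord x → ord x < ord w →
      ord w < ord y → page s(v, w) ≠ page s(x, y)

theorem hasBook_listGraph {V : Type} (G : SimpleGraph V) {l : List V} (hl : l.Nodup)
    (hne : l ≠ []) {S : V → Prop} (hS : ∀ v, v ∈ l ↔ S v) (k : ℕ) :
    HasBook (listGraph G l) k ↔ BookOn G S k := by
  constructor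
  · rintro ⟨ord, page, h1, h2, h3⟩
    have : Nonempty (Fin l.length) := ⟨⟨0, List.length_pos_iff.2 hne⟩⟩
    have hg : ∀ v, S v → l.get (invFun l.get v) = v := fun v hv =>
      invFun_eq (List.mem_iff_get.1 ((hS v).2 hv))
    have ha : ∀ v w, S v → S w → G.Adj v w →
        (listGraph G l).Adj (invFun l.get v) (invFun l.get w) := fun v w hv hw h => by
      show G.Adj (l.get _) (l.get _)
      rwa [hg v hv, hg w hw]
    refine ⟨fun v => ord (invFun l.get v), fun e => page (e.map (invFun l.get)),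
      fun u v hu hv h => ?_, fun v w hv hw h => h2 _ _ (ha v w hv hw h),
      fun v w x y hv hw hx hy a b => h3 _ _ _ _ (ha v w hv hw a) (ha x y hx hy b)⟩
    rw [← hg u hu, ← hg v hv, h1 h]
  · rintro ⟨ord, page, h1, h2, h3⟩
    have hm : ∀ i, S (l.get i) := fun i => (hS _).1 (List.get_mem _ _)
    exact ⟨fun i => ord (l.get i), fun e => page (e.map l.get),
      fun i j h => List.nodup_iff_injective_get.1 hl (h1 _ _ (hm i) (hm j) h),
      fun v w h => h2 _ _ (hm v) (hm w) h,
      fun v w x y a b => h3 _ _ _ _ (hm v) (hm w) (hm x) (hm y) a b⟩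

theorem HasBook.mono {V : Type} {G : SimpleGraph V} {k k' : ℕ} (h : HasBook G k) (hk : k ≤ k') :
    HasBook G k' := by
  obtain ⟨ord, page, h1, h2, h3⟩ := h
  exact ⟨ord, page, h1, fun v w h => (h2 v w h).trans_le hk, h3⟩

theorem hasBook_self {n : ℕ} (G : SimpleGraph (Fin n)) : HasBook G n := by
  refine ⟨Fin.val, Sym2.lift ⟨fun v w => min v.val w.val, fun v w => min_comm _ _⟩,
    Fin.val_injective, fun v w _ => ?_, fun v w x y _ _ h1 h2 h3 => ?_⟩
  · have := v.2
    simp only [Sym2.lift_mk]
    omega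
  · simp only [Sym2.lift_mk]
    omega

theorem bookThickness_le_iff {n : ℕ} (G : SimpleGraph (Fin n)) (k : ℕ) :
    bookThickness G ≤ k ↔ HasBook G k :=
  ⟨fun h => HasBook.mono (Nat.sInf_mem (s := {k | HasBook G k}) ⟨n, hasBook_self G⟩) h,
    fun h => Nat.sInf_le h⟩

end Pool.Agent.MP_cfb5a8_lc

end MrgPart1

-- ======== part 2: formerly Pool.Agent.MP_cfb5a8_lc.Layout
section MrgPart2

/-!
From a satisfying assignment to a layout of the gadget.
-/

set_option autoImplicit false

namespace Pool.Agent.MP_cfb5a8_lc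

open HV

theorem Ed.cases {I : Inst} {a b : HV} (e : Ed I a b) :
    (a = w ∧ b = g) ∨ (a = w ∧ b = h) ∨ (a = w ∧ b = s 0) ∨ (a = g ∧ b = h) ∨ (a = h ∧ b = s 0) ∨
    (∃ c < I.n + 3, 0 < I.T ∧ a = h ∧ b = x c 0) ∨ (∃ t < I.T, a = s t ∧ b = z t) ∨
    (∃ t < I.T, a = z t ∧ b = s (t + 1)) ∨
    (∃ c < I.n + 3, ∃ t, t + 1 < I.T ∧ a = x c t ∧ b = x c (t + 1)) := by
  obtain ⟨h1, h2, h3⟩ := e
  cases a <;> cases b <;> simp_all [E, valid]

/-- Rank of a strand in the even layers. -/
def rank (n : ℕ) (b : ℕ → Bool) (c : ℕ) : ℕ :=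
  if c = 0 then 0 else if c = 1 then 2 * n + 2 else if c = 2 then n + 1
  else if b (c - 3) then c - 2 else n + c - 1

/-- Offset of a strand vertex in its layer. -/
def offx (n : ℕ) (b : ℕ → Bool) (c t : ℕ) : ℕ :=
  if t % 2 = 0 then 2 * rank n b c + 2 else 4 * n + 6 - 2 * rank n b c

/-- The layer of a vertex. -/
def lay : HV → ℕ
  | w => 0
  | g => 0
  | h => 0
  | s t => t + 1
  | z t => t + 1
  | x _ t => t + 1

/-- The offset of a vertex in its layer. -/
def off (n : ℕ) (b : ℕ → Bool) : HV → ℕ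
  | w => 0
  | g => 1
  | h => 2
  | s _ => 0
  | z _ => 2 * n + 3
  | x c t => offx n b c t

/-- The page labels, given the witnesses `i t` of the tests. -/
def labOf (i : ℕ → ℕ) : HV → HV → ℕ
  | s t, _ => 4 + 4 * (t % 2)
  | z t, _ => 4 + i t + 4 * (t % 2)
  | h, x _ _ => 0
  | x _ t, _ => (t + 1) % 4
  | _, _ => 12

theorem lex_lt {W a b c d : ℕ} (hb : b < W) (hd : d < W) :
    a * W + b < c * W + d ↔ a < c ∨ (a = c ∧ b < d) := by
  rcases lt_trichotomy a c with h | rfl | h
  · have : (a + 1) * W ≤ c * W := Nat.mul_le_mul_right _ h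
    rw [add_mul] at this
    omega
  · omega
  · have : (c + 1) * W ≤ a * W := Nat.mul_le_mul_right _ h
    rw [add_mul] at this
    omega

section

variable {n : ℕ} {b : ℕ → Bool} {c d t : ℕ}

theorem rank_le (hc : c < n + 3) : rank n b c ≤ 2 * n + 2 := by
  unfold rank; split_ifs <;> omega

theorem rank_inj (hc : c < n + 3) (hd : d < n + 3) (h : rank n b c = rank n b d) : c = d := by
  unfold rank at h; split_ifs at h <;> omega

theorem offx_bd (hc : c < n + 3) :
    2 ≤ offx n b c t ∧ offx n b c t ≤ 4 * n + 6 ∧ offx n b c t % 2 = 0 := by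
  have := rank_le (b := b) hc
  unfold offx; split_ifs <;> omega

theorem offx_succ (hc : c < n + 3) : offx n b c (t + 1) + offx n b c t = 4 * n + 8 := by
  have := rank_le (b := b) hc
  unfold offx; split_ifs <;> omega

theorem offx_inj (hc : c < n + 3) (hd : d < n + 3) (h : offx n b c t = offx n b d t) : c = d := by
  have h1 := rank_le (b := b) hc
  have h2 := rank_le (b := b) hd
  apply rank_inj (b := b) hc hd
  unfold offx at h; split_ifs at h <;> omega

theorem offx_l (hc : c < 2) (hp : (c + t) % 2 = 0) : offx n b c t = 2 := by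
  unfold offx rank; split_ifs <;> omega

theorem offx_r (hc : c < 2) (hp : ¬ (c + t) % 2 = 0) : offx n b c t = 4 * n + 6 := by
  unfold offx rank; split_ifs <;> omega

theorem offx_m : offx n b 2 t = 2 * n + 4 := by
  have : rank n b 2 = n + 1 := rfl
  unfold offx; split_ifs <;> omega

theorem offx_lit {o : ℕ} (ho : o < n) (hb : b o = decide (t % 2 = 0)) :
    offx n b (o + 3) t < 2 * n + 3 := by
  unfold offx rank
  rw [Nat.add_sub_cancel, hb]
  split_ifs <;> first | omega | simp_all

end

theorem off_lt {I : Inst} (b : ℕ → Bool) {v : HV} (hv : valid I v) : off I.n b v < 4 * I.n + 8 := by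
  cases v with
  | x c t => have := offx_bd (b := b) (t := t) hv.1; simp only [off]; omega
  | _ => simp only [off]; omega

/-- The position of a vertex. -/
def posOf (n : ℕ) (b : ℕ → Bool) (v : HV) : ℕ := lay v * (4 * n + 8) + off n b v

theorem posOf_lt {I : Inst} (b : ℕ → Bool) {u v : HV} (hu : valid I u) (hv : valid I v) :
    posOf I.n b u < posOf I.n b v ↔
      lay u < lay v ∨ (lay u = lay v ∧ off I.n b u < off I.n b v) :=
  lex_lt (off_lt b hu) (off_lt b hv)

theorem posOf_bd {I : Inst} (b : ℕ → Bool) {v : HV} (hv : valid I v) :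
    posOf I.n b v < (I.T + 2) * (4 * I.n + 8) := by
  have h1 : lay v < I.T + 2 := by
    cases v <;> simp only [lay, valid] at * <;> omega
  exact (lex_lt (c := I.T + 2) (d := 0) (off_lt b hv) (by omega)).2 (Or.inl h1)

theorem posOf_edge {I : Inst} (b : ℕ → Bool) {u v : HV} (e : Ed I u v) :
    posOf I.n b u < posOf I.n b v := by
  rw [posOf_lt b e.1 e.2.1]
  rcases e.cases with ⟨rfl, rfl⟩ | ⟨rfl, rfl⟩ | ⟨rfl, rfl⟩ | ⟨rfl, rfl⟩ | ⟨rfl, rfl⟩ |
    ⟨c, -, -, rfl, rfl⟩ | ⟨t, -, rfl, rfl⟩ | ⟨t, -, rfl, rfl⟩ | ⟨c, -, t, -, rfl, rfl⟩ <;>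
  simp [lay, off]

theorem labOf_lt {i : ℕ → ℕ} (hi : ∀ t, i t ≤ 3) (u v : HV) : labOf i u v < 13 := by
  cases u <;> cases v <;> simp only [labOf] <;>
    first | omega | (rename_i t _ _; have := hi t; omega) | (rename_i t _; have := hi t; omega) |
      (rename_i t; have := hi t; omega)

theorem tr_x {I : Inst} {b : ℕ → Bool} {i : ℕ → ℕ} (hi : ∀ t, 1 ≤ i t ∧ i t ≤ 3)
    (hp : ∀ t < I.T, I.n ≤ I.f t (i t) ∨ b (I.f t (i t)) = decide (t % 2 = 0))
    {c t p : ℕ} (hc : c < I.n + 3) (ht : t < I.T)
    (h : (p = t % 4 ∧ offx I.n b c t < 4 * I.n + 6) ∨ (p = (t + 1) % 4 ∧ 2 < offx I.n b c t) ∨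
      (p = 4 + 4 * (t % 2) ∧ offx I.n b c t < 2 * I.n + 3) ∨
      (p = 4 + i t + 4 * (t % 2) ∧ 2 * I.n + 3 < offx I.n b c t)) : tau I (x c t) p := by
  have h1 := hi t
  simp only [tau]
  split_ifs with c1 c2
  · have := offx_l (n := I.n) (b := b) c1 c2
    omega
  · have := offx_r (n := I.n) (b := b) c1 c2
    omega
  · have h2 : c = 2 → offx I.n b c t = 2 * I.n + 4 := fun h => by rw [h]; exact offx_m
    have h3 : c = I.f t (i t) + 3 → offx I.n b c t < 2 * I.n + 3 := fun h => by
      rcases hp t ht with h4 | h4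
      · omega
      · rw [h]; exact offx_lit (by omega) h4
    obtain h4 | h4 | h4 : i t = 1 ∨ i t = 2 ∨ i t = 3 := by omega
    all_goals rw [h4] at h3 h; omega

theorem exists_layout {I : Inst} {b : ℕ → Bool} (hb : ∀ t < I.T, Pass I b t) :
    ∃ (pos : HV → ℕ) (lab : HV → HV → ℕ) (D : ℕ), IsLayout I (fun v => pos v) lab ∧
      (∀ v, valid I v → pos v < D) ∧ ∀ u v, lab u v < 13 := by
  have hb' : ∀ t, ∃ i, (1 ≤ i ∧ i ≤ 3) ∧
      (t < I.T → I.n ≤ I.f t i ∨ b (I.f t i) = decide (t % 2 = 0)) := by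
    intro t
    by_cases ht : t < I.T
    · obtain ⟨i, h1, h2, h3⟩ := hb t ht
      exact ⟨i, ⟨h1, h2⟩, fun _ => h3⟩
    · exact ⟨1, ⟨le_rfl, by omega⟩, fun h => absurd h ht⟩
  choose i hi hp using hb'
  refine ⟨posOf I.n b, labOf i, _, ⟨?_, ?_, ?_⟩, fun v hv => posOf_bd b hv,
    labOf_lt (fun t => (hi t).2)⟩
  · intro u v hu hv h
    have h1 := posOf_lt b hu hv
    have h2 := posOf_lt b hv hu
    have h3 : lay u = lay v ∧ off I.n b u = off I.n b v := by omega
    clear h1 h2 h
    cases u with
    | x c t =>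
      have b1 := offx_bd (b := b) (t := t) hu.1
      cases v with
      | x d j =>
        simp only [lay, off] at h3
        obtain rfl : t = j := by omega
        rw [offx_inj hu.1 hv.1 h3.2]
      | _ => simp only [lay, off] at h3; omega
    | _ =>
      cases v with
      | x d j =>
        have b1 := offx_bd (b := b) (t := j) hv.1
        simp only [lay, off] at h3
        omega
      | _ =>
        simp only [lay, off] at h3
        first | rfl | omega | rw [Nat.add_right_cancel h3.1]
  · intro u u' v e hv h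
    have h1 := posOf_edge b e
    have h2 : posOf I.n b u < posOf I.n b v ∧ posOf I.n b v < posOf I.n b u' := by
      unfold Btw at h; omega
    rw [posOf_lt b e.1 hv, posOf_lt b hv e.2.1] at h2
    clear h h1
    rcases e.cases with ⟨rfl, rfl⟩ | ⟨rfl, rfl⟩ | ⟨rfl, rfl⟩ | ⟨rfl, rfl⟩ | ⟨rfl, rfl⟩ |
      ⟨c, hc, ht, rfl, rfl⟩ | ⟨t, ht, rfl, rfl⟩ | ⟨t, ht, rfl, rfl⟩ | ⟨c, hc, t, ht, rfl, rfl⟩
    all_goals
      cases v with
      | x d j =>
        have b1 := offx_bd (b := b) (t := j) hv.1
        refine tr_x hi hp hv.1 hv.2 ?_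
        simp only [lay, off, labOf] at h2 ⊢
        first
          | omega
          | (have b2 := offx_bd (b := b) (t := 0) hc; omega)
          | (have b2 := offx_bd (b := b) (t := t) hc
             have b3 := offx_bd (b := b) (t := t + 1) hc; omega)
          | (obtain rfl : j = t := by omega
             omega)
      | _ =>
        simp only [lay, off, labOf, tau] at h2 ⊢ <;> omega
  · have key : ∀ u u' v v', Ed I u u' → Ed I v v' → posOf I.n b u < posOf I.n b v →
        posOf I.n b v < posOf I.n b u' → posOf I.n b u' < posOf I.n b v' →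
        labOf i u u' ≠ labOf i v v' := by
      intro u u' v v' e e' h1 h2 h3
      rw [posOf_lt b e.1 e'.1] at h1
      rw [posOf_lt b e'.1 e.2.1] at h2
      rw [posOf_lt b e.2.1 e'.2.1] at h3
      rcases e.cases with ⟨rfl, rfl⟩ | ⟨rfl, rfl⟩ | ⟨rfl, rfl⟩ | ⟨rfl, rfl⟩ | ⟨rfl, rfl⟩ |
        ⟨c, hc, ht, rfl, rfl⟩ | ⟨t, ht, rfl, rfl⟩ | ⟨t, ht, rfl, rfl⟩ | ⟨c, hc, t, ht, rfl, rfl⟩
      all_goals
        rcases e'.cases with ⟨rfl, rfl⟩ | ⟨rfl, rfl⟩ | ⟨rfl, rfl⟩ | ⟨rfl, rfl⟩ | ⟨rfl, rfl⟩ |
          ⟨d, hd, hj, rfl, rfl⟩ | ⟨j, hj, rfl, rfl⟩ | ⟨j, hj, rfl, rfl⟩ | ⟨d, hd, j, hj, rfl, rfl⟩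
      all_goals simp only [lay, off, labOf] at h1 h2 h3 ⊢
      all_goals first
        | omega
        | (have := hi j; omega)
        | (have := hi t; omega)
        | (have b1 := offx_succ (b := b) (t := t) hc
           have b2 := offx_succ (b := b) (t := j) hd
           by_cases h4 : t = j
           · subst h4; omega
           · omega)
    intro u u' v v' e e' h
    have h1 := posOf_edge b e
    have h2 := posOf_edge b e'
    unfold Cross Btw Out at h
    by_cases h3 : posOf I.n b u < posOf I.n b v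
    · exact key u u' v v' e e' h3 (by omega) (by omega)
    · exact (key v v' u u' e' e (by omega) (by omega) (by omega)).symm

end Pool.Agent.MP_cfb5a8_lc

end MrgPart2

-- ======== part 3: formerly Pool.Agent.MP_cfb5a8_lc.Frame
section MrgPart3

/-!
The graph made of 13 apex vertices and many copies of the gadget.  It has a 13-page book
embedding iff the gadget has a layout, and its pathwidth is at most 15.
-/

set_option autoImplicit false

namespace Pool.Agent.MP_cfb5a8_lc

open HV Function

/-- Vertices of the big graph. -/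
inductive GV : Type
  | apex : ℕ → GV
  | v : ℕ → HV → GV
  deriving DecidableEq

open GV

theorem E_asymm {a b : HV} (h : E a b) : ¬ E b a := by
  cases a <;> cases b <;> simp_all [E]
  omega

/-- Adjacency in the big graph. -/
def GA (I : Inst) : GV → GV → Prop
  | apex _, apex _ => False
  | apex p, v _ u => ¬ tau I u p
  | v _ u, apex p => ¬ tau I u p
  | v c a, v d b => c = d ∧ (E a b ∨ E b a)

/-- The big graph. -/
def GG (I : Inst) : SimpleGraph GV where
  Adj := GA I
  symm := ⟨fun a b h => by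
    cases a <;> cases b <;> simp only [GA] at h ⊢
    · exact h
    · exact h
    · exact ⟨h.1.symm, h.2.symm⟩⟩
  loopless := ⟨fun a h => by
    cases a <;> simp only [GA] at h
    rcases h.2 with h | h <;> exact E_asymm h h⟩

/-- The vertices of the big graph with `N` copies. -/
def validG (N : ℕ) (I : Inst) : GV → Prop
  | apex p => p < 13
  | v c u => c < N ∧ valid I u

theorem conn {I : Inst} (P : HV → Prop) (h0 : P w) (hE : ∀ a b, Ed I a b → P a → P b) :
    ∀ u, valid I u → P u := by
  have hh : P h := hE w h ⟨trivial, trivial, trivial⟩ h0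
  have hs : ∀ t ≤ I.T, P (s t) := by
    intro t
    induction t with
    | zero => exact fun ht => hE w _ ⟨trivial, ht, rfl⟩ h0
    | succ t ih => exact fun ht => hE _ _ (ed_zs ht) (hE _ _ (ed_sz ht) (ih (by omega)))
  intro u hu
  cases u with
  | w => exact h0
  | g => exact hE w g ⟨trivial, trivial, trivial⟩ h0
  | h => exact hh
  | s t => exact hs t hu
  | z t => exact hE _ _ (ed_sz hu) (hs t (le_of_lt hu))
  | x c t =>
    obtain ⟨hc, ht⟩ := hu
    induction t with
    | zero => exact hE h _ ⟨trivial, ⟨hc, ht⟩, rfl⟩ hh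
    | succ t ih => exact hE _ _ (ed_xx hc ht) (ih (by omega))

section Core

variable {N : ℕ} {I : Inst} {ord : GV → ℕ} {page : Sym2 GV → ℕ}

theorem cross_ne
    (h3 : ∀ a b c d, validG N I a → validG N I b → validG N I c → validG N I d →
      (GG I).Adj a b → (GG I).Adj c d → ord a < ord c → ord c < ord b → ord b < ord d →
      page s(a, b) ≠ page s(c, d))
    {a b c d : GV} (ha : validG N I a) (hb : validG N I b) (hc : validG N I c)
    (hd : validG N I d) (e : (GG I).Adj a b) (e' : (GG I).Adj c d)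
    (h : Cross (ord a) (ord b) (ord c) (ord d)) : page s(a, b) ≠ page s(c, d) := by
  have a1 := h3 a b c d ha hb hc hd e e'
  have a2 := h3 b a c d hb ha hc hd e.symm e'
  have a3 := h3 a b d c ha hb hd hc e e'.symm
  have a4 := h3 b a d c hb ha hd hc e.symm e'.symm
  have a5 := h3 c d a b hc hd ha hb e' e
  have a6 := h3 d c a b hd hc ha hb e'.symm e
  have a7 := h3 c d b a hc hd hb ha e' e.symm
  have a8 := h3 d c b a hd hc hb ha e'.symm e.symm
  rw [Sym2.eq_swap (a := b)] at a2 a4 a7 a8
  rw [Sym2.eq_swap (a := d)] at a3 a4 a6 a8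
  unfold Cross Btw Out at h
  clear h3
  rcases h with ⟨h | h, h' | h'⟩ | ⟨h | h, h' | h'⟩
  · exact (a6 (by omega) (by omega) (by omega)).symm
  · exact a1 (by omega) (by omega) (by omega)
  · exact (a8 (by omega) (by omega) (by omega)).symm
  · exact a2 (by omega) (by omega) (by omega)
  · exact (a5 (by omega) (by omega) (by omega)).symm
  · exact a3 (by omega) (by omega) (by omega)
  · exact (a7 (by omega) (by omega) (by omega)).symm
  · exact a4 (by omega) (by omega) (by omega)

theorem frame_core (h1 : ∀ a b, validG N I a → validG N I b → ord a = ord b → a = b)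
    (h2 : ∀ a b, validG N I a → validG N I b → (GG I).Adj a b → page s(a, b) < 13)
    (h3 : ∀ a b c d, validG N I a → validG N I b → validG N I c → validG N I d →
      (GG I).Adj a b → (GG I).Adj c d → ord a < ord c → ord c < ord b → ord b < ord d →
      page s(a, b) ≠ page s(c, d))
    {c₁ c₂ c₃ : ℕ} (v₁ : c₁ < N) (v₂ : c₂ < N) (v₃ : c₃ < N)
    (o₁ : ord (v c₁ w) < ord (v c₂ w)) (o₂ : ord (v c₂ w) < ord (v c₃ w))
    (hs : ∀ p < 13, ord (apex p) < ord (v c₁ w) ↔ ord (apex p) < ord (v c₃ w))
    (hp : ∀ p < 13, page s(apex p, v c₁ w) = page s(apex p, v c₃ w)) :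
    ∃ pos lab, IsLayout I pos lab := by
  have w₁ : validG N I (v c₁ w) := ⟨v₁, trivial⟩
  have w₃ : validG N I (v c₃ w) := ⟨v₃, trivial⟩
  have aw : ∀ p c, (GG I).Adj (apex p) (v c w) := fun p c h => h
  have ne : ∀ a b, validG N I a → validG N I b → a ≠ b → ord a ≠ ord b :=
    fun a b ha hb h e => h (h1 a b ha hb e)
  have out : ∀ p < 13, ord (apex p) < ord (v c₁ w) ∨ ord (v c₃ w) < ord (apex p) := by
    intro p hp'
    have a1 := hs p hp'
    have a2 := ne (apex p) _ hp' w₃ (by simp)
    omega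
  let col : Fin 13 → Fin 13 := fun p => ⟨page s(apex p, v c₁ w), h2 _ _ p.2 w₁ (aw _ _)⟩
  have hinj : Injective col := by
    intro p q h
    have h : page s(apex p, v c₁ w) = page s(apex q, v c₁ w) := congrArg Fin.val h
    by_contra hpq
    have a1 := ne (apex p) (apex q) p.2 q.2 (by simpa [Fin.ext_iff] using hpq)
    have a2 := out p p.2
    have a3 := out q q.2
    have a4 : ¬ Cross _ _ _ _ := fun hc =>
      cross_ne h3 (a := apex p) (c := apex q) p.2 w₁ q.2 w₃ (aw _ _) (aw _ _) hc
        (by rw [h, hp q q.2])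
    have a5 : ¬ Cross _ _ _ _ := fun hc =>
      cross_ne h3 (a := apex p) (c := apex q) p.2 w₃ q.2 w₁ (aw _ _) (aw _ _) hc
        (by rw [← h, hp p p.2])
    unfold Cross Btw Out at a4 a5
    omega
  have hsurj : ∀ q, ∃ p, q < 13 → p < 13 ∧ page s(apex p, v c₁ w) = q := by
    intro q
    by_cases hq : q < 13
    · obtain ⟨p, hp⟩ := Finite.injective_iff_surjective.1 hinj ⟨q, hq⟩
      exact ⟨p, fun _ => ⟨p.2, congrArg Fin.val hp⟩⟩
    · exact ⟨0, fun h => absurd h hq⟩
  choose σ hσ using hsurj
  -- an edge does not cross the two edges from its page's apex to the outer walls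
  have two : ∀ a b, validG N I a → validG N I b → (GG I).Adj a b →
      σ (page s(a, b)) < 13 ∧ page s(apex (σ (page s(a, b))), v c₁ w) = page s(a, b) ∧
      ¬ Cross (ord a) (ord b) (ord (apex (σ (page s(a, b))))) (ord (v c₁ w)) ∧
      ¬ Cross (ord a) (ord b) (ord (apex (σ (page s(a, b))))) (ord (v c₃ w)) := by
    intro a b ha hb e
    obtain ⟨a1, a2⟩ := hσ _ (h2 a b ha hb e)
    exact ⟨a1, a2, fun hc => cross_ne h3 ha hb (c := apex _) a1 w₁ e (aw _ _) hc a2.symm,
      fun hc => cross_ne h3 ha hb (c := apex _) a1 w₃ e (aw _ _) hc (by rw [← hp _ a1, a2])⟩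
  have F0 : ∀ y p, validG N I y → p < 13 → ord (v c₁ w) < ord y → ord y < ord (v c₃ w) →
      (GG I).Adj (apex p) y → page s(apex p, y) = page s(apex p, v c₁ w) := by
    intro y p hy hp' b1 b2 e
    obtain ⟨a1, a2, a3, a4⟩ := two (apex p) y hp' hy e
    by_cases h : σ (page s(apex p, y)) = p
    · rw [← a2, h]
    · exfalso
      have a5 := ne (apex p) (apex _) hp' a1 (by simpa using Ne.symm h)
      have a6 := out p hp'
      have a7 := out _ a1
      unfold Cross Btw Out at a3 a4
      omega
  have n₁ : c₂ ≠ c₁ := fun h => by rw [h] at o₁; omega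
  have n₃ : c₂ ≠ c₃ := fun h => by rw [h] at o₂; omega
  have ea : ∀ a b, Ed I a b → (GG I).Adj (v c₂ a) (v c₂ b) := fun a b e => ⟨rfl, Or.inl e.2.2⟩
  have F2 : ∀ u, valid I u → ord (v c₁ w) < ord (v c₂ u) ∧ ord (v c₂ u) < ord (v c₃ w) := by
    refine conn _ ⟨o₁, o₂⟩ (fun a b e ha => ?_)
    have vb : validG N I (v c₂ b) := ⟨v₂, e.2.1⟩
    obtain ⟨a1, -, a3, a4⟩ := two (v c₂ a) (v c₂ b) ⟨v₂, e.1⟩ vb (ea a b e)
    have a5 := ne _ _ vb w₁ (by simp [n₁])
    have a6 := ne _ _ vb w₃ (by simp [n₃])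
    have a7 := ne _ (apex _) vb a1 (by simp)
    have a8 := out _ a1
    unfold Cross Btw Out at a3 a4
    omega
  refine ⟨fun u => ord (v c₂ u), fun a b => σ (page s(v c₂ a, v c₂ b)), ?_, ?_, ?_⟩
  · intro a b ha hb h
    have := h1 (v c₂ a) (v c₂ b) ⟨v₂, ha⟩ ⟨v₂, hb⟩ (by exact_mod_cast h)
    exact (GV.v.inj this).2
  · intro a b u e hu h
    have va : validG N I (v c₂ a) := ⟨v₂, e.1⟩
    have vb : validG N I (v c₂ b) := ⟨v₂, e.2.1⟩
    have vu : validG N I (v c₂ u) := ⟨v₂, hu⟩
    obtain ⟨a1, a2, -, -⟩ := two _ _ va vb (ea a b e)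
    by_contra h4
    have e' : (GG I).Adj (apex (σ (page s(v c₂ a, v c₂ b)))) (v c₂ u) := h4
    have a3 := F0 _ _ vu a1 (F2 u hu).1 (F2 u hu).2 e'
    have a4 := F2 a e.1
    have a5 := F2 b e.2.1
    have a6 := out _ a1
    refine cross_ne h3 va vb (c := apex _) a1 vu (ea a b e) e' ?_ (by rw [a3, a2])
    exact Or.inr ⟨h, by unfold Out; omega⟩
  · intro a b c d e e' h h4
    have va : validG N I (v c₂ a) := ⟨v₂, e.1⟩
    have vb : validG N I (v c₂ b) := ⟨v₂, e.2.1⟩
    have vc : validG N I (v c₂ c) := ⟨v₂, e'.1⟩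
    have vd : validG N I (v c₂ d) := ⟨v₂, e'.2.1⟩
    obtain ⟨-, a1, -, -⟩ := two _ _ va vb (ea a b e)
    obtain ⟨-, a2, -, -⟩ := two _ _ vc vd (ea c d e')
    exact cross_ne h3 va vb vc vd (ea a b e) (ea c d e') h (by rw [← a1, ← a2, h4])

end Core

theorem layout_of_book {N : ℕ} (hN : 2 ^ 13 * 13 ^ 13 * 2 < N) {I : Inst}
    (h : BookOn (GG I) (validG N I) 13) : ∃ pos lab, IsLayout I pos lab := by
  obtain ⟨ord, page, h1, h2, h3⟩ := h
  let κ : Fin N → (Fin 13 → Bool) × (Fin 13 → Fin 13) := fun c =>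
    (fun p => decide (ord (apex p) < ord (v c w)),
      fun p => ⟨page s(apex p, v c w), h2 _ _ p.2 ⟨c.2, trivial⟩ (fun h => h)⟩)
  obtain ⟨y, hy⟩ := Fintype.exists_lt_card_fiber_of_mul_lt_card κ (n := 2) (by simpa using hN)
  obtain ⟨a, ha, b, hb, c, hc, n1, n2, n3⟩ := Finset.two_lt_card.1 hy
  simp only [Finset.mem_filter, Finset.mem_univ, true_and] at ha hb hc
  have key : ∀ a b c : Fin N, κ a = κ c → ord (v a w) < ord (v b w) → ord (v b w) < ord (v c w) →
      ∃ pos lab, IsLayout I pos lab := by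
    intro a b c h o1 o2
    refine frame_core h1 h2 h3 a.2 b.2 c.2 o1 o2 (fun p hp => ?_) (fun p hp => ?_)
    · exact decide_eq_decide.1 (congrFun (congrArg Prod.fst h) ⟨p, hp⟩)
    · exact congrArg Fin.val (congrFun (congrArg Prod.snd h) ⟨p, hp⟩)
  have ne : ∀ a b : Fin N, a ≠ b → ord (v a w) ≠ ord (v b w) := fun a b h e =>
    h (Fin.ext (GV.v.inj (h1 (v a w) (v b w) ⟨a.2, trivial⟩ ⟨b.2, trivial⟩ e)).1)
  have m1 := ne a b n1
  have m2 := ne a c n2
  have m3 := ne b c n3
  have k1 := key a b c (ha.trans hc.symm)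
  have k2 := key a c b (ha.trans hb.symm)
  have k3 := key b a c (hb.trans hc.symm)
  have k4 := key b c a (hb.trans ha.symm)
  have k5 := key c a b (hc.trans hb.symm)
  have k6 := key c b a (hc.trans ha.symm)
  by_contra h4
  simp only [h4, imp_false, not_lt] at k1 k2 k3 k4 k5 k6
  omega

open Classical in
/-- The page of an edge of the big graph. -/
noncomputable def pg (lab : HV → HV → ℕ) : GV → GV → ℕ
  | apex _, apex _ => 0
  | apex p, v _ _ => p
  | v _ _, apex p => p
  | v _ a, v _ b => if E a b then lab a b else if E b a then lab b a else 0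

theorem pg_symm (lab : HV → HV → ℕ) (a b : GV) : pg lab a b = pg lab b a := by
  cases a <;> cases b <;> simp only [pg]
  rename_i c a d b
  by_cases h : E a b
  · simp [h, E_asymm h]
  · simp [h]

theorem book_of_layout (N : ℕ) {I : Inst} {pos : HV → ℕ} {lab : HV → HV → ℕ} {D : ℕ}
    (L : IsLayout I (fun u => pos u) lab) (hD : ∀ u, valid I u → pos u < D)
    (hl : ∀ a b, lab a b < 13) : BookOn (GG I) (validG N I) 13 := by
  let ord : GV → ℕ := fun a => match a with
    | apex p => N * D + p
    | v c u => c * D + pos u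
  have lex : ∀ c a d b, valid I a → valid I b →
      (ord (v c a) < ord (v d b) ↔ c < d ∨ (c = d ∧ pos a < pos b)) :=
    fun c a d b ha hb => lex_lt (hD a ha) (hD b hb)
  have low : ∀ c a p, c < N → valid I a → ord (v c a) < ord (apex p) := by
    intro c a p hc ha
    have := (lex_lt (a := c) (c := N) (d := 0) (hD a ha) (by have := hD a ha; omega)).2
      (Or.inl hc)
    simp only [ord]
    omega
  have pe : ∀ c a b, valid I a → valid I b → (GG I).Adj (v c a) (v c b) →
      (Ed I a b ∧ pg lab (v c a) (v c b) = lab a b) ∨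
      (Ed I b a ∧ pg lab (v c a) (v c b) = lab b a) := by
    intro c a b ha hb h
    rcases h.2 with h | h
    · exact Or.inl ⟨⟨ha, hb, h⟩, by simp [pg, h]⟩
    · exact Or.inr ⟨⟨hb, ha, h⟩, by simp [pg, h, E_asymm h]⟩
  refine ⟨ord, Sym2.lift ⟨pg lab, pg_symm lab⟩, ?_, ?_, ?_⟩
  · intro a b ha hb h
    cases a <;> cases b
    · simp only [ord] at h; congr 1; omega
    · rename_i p _ _
      have := low _ _ p hb.1 hb.2; omega
    · rename_i p
      have := low _ _ p ha.1 ha.2; omega
    · rename_i c a d b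
      have a1 := lex c a d b ha.2 hb.2
      have a2 := lex d b c a hb.2 ha.2
      rw [show c = d by omega, L.inj a b ha.2 hb.2 (by omega)]
  · intro a b ha hb h
    cases a <;> cases b <;> simp only [Sym2.lift_mk, pg]
    · omega
    · exact ha
    · exact hb
    · split_ifs
      · exact hl _ _
      · exact hl _ _
      · omega
  · intro a b a' b' ha hb ha' hb' e e' o1 o2 o3
    simp only [Sym2.lift_mk]
    cases a with
    | apex p =>
      cases b with
      | apex q => exact e.elim
      | v d b => have := low _ _ p hb.1 hb.2; omega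
    | v c a =>
      cases a' with
      | apex p =>
        cases b' with
        | apex q => exact e'.elim
        | v d b' => have := low _ _ p hb'.1 hb'.2; omega
      | v c' a' =>
        cases b with
        | apex p =>
          cases b' with
          | apex q => simp only [ord, pg] at o3 ⊢; omega
          | v d b' => have := low _ _ p hb'.1 hb'.2; omega
        | v d b =>
          obtain rfl : c = d := e.1
          rw [lex _ _ _ _ ha.2 ha'.2] at o1
          rw [lex _ _ _ _ ha'.2 hb.2] at o2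
          obtain rfl : c = c' := by omega
          cases b' with
          | apex q =>
            have e' : ¬ tau I a' q := e'
            rcases pe c a b ha.2 hb.2 e with ⟨f, h⟩ | ⟨f, h⟩
            all_goals
              rw [h]
              have := L.tr _ _ a' f ha'.2 (by unfold Btw; omega)
              intro h'
              exact e' (by rw [h'] at this; exact this)
          | v d' b' =>
            obtain rfl : c = d' := e'.1
            rw [lex _ _ _ _ hb.2 hb'.2] at o3
            rcases pe c a b ha.2 hb.2 e with ⟨f, h⟩ | ⟨f, h⟩ <;>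
            rcases pe c a' b' ha'.2 hb'.2 e' with ⟨f', h'⟩ | ⟨f', h'⟩ <;>
            rw [h, h'] <;> exact L.nc _ _ _ _ f f' (by unfold Cross Btw Out; omega)

/-- A numbering of the gadget along which edges avoiding `h` join consecutive vertices. -/
def ix (T : ℕ) : HV → ℕ
  | g => 0
  | w => 1
  | h => 0
  | s t => 2 + 2 * t
  | z t => 3 + 2 * t
  | x c t => 2 * T + 3 + (c * T + t)

theorem ix_lt {I : Inst} {u : HV} (hu : valid I u) :
    ix I.T u + 1 < 2 * I.T + 4 + (I.n + 3) * I.T := by
  cases u with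
  | x c t =>
    have := (lex_lt (a := c) (c := I.n + 3) (d := 0) hu.2 (by have := hu.2; omega)).2
      (Or.inl hu.1)
    simp only [ix]
    omega
  | _ => simp only [ix, valid] at hu ⊢; omega

theorem ix_inj {I : Inst} {u u' : HV} (hu : valid I u) (hu' : valid I u') (h1 : u ≠ h)
    (h2 : u' ≠ h) (e : ix I.T u = ix I.T u') : u = u' := by
  cases u with
  | x c t =>
    cases u' with
    | x d j =>
      have a1 := lex_lt (a := c) (c := d) hu.2 hu'.2
      have a2 := lex_lt (a := d) (c := c) hu'.2 hu.2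
      simp only [ix] at e
      rw [show c = d by omega, show t = j by omega]
    | _ => simp only [ix, valid] at e hu'; omega
  | _ =>
    cases u' <;> simp only [ix, valid] at e hu hu' <;>
      first | rfl | omega | contradiction | (congr 1; omega)

theorem pathwidth_GG (N : ℕ) (I : Inst) {l : List GV} (hl : l.Nodup)
    (hS : ∀ a, a ∈ l ↔ validG N I a) : PathwidthLE (listGraph (GG I) l) 15 := by
  classical
  obtain ⟨D, hD⟩ : ∃ D, D = 2 * I.T + 4 + (I.n + 3) * I.T := ⟨_, rfl⟩
  have hix : ∀ u, valid I u → ix I.T u + 1 < D := fun u hu => hD ▸ ix_lt hu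
  let lo : GV → ℕ := fun a => match a with
    | apex _ => 0
    | v c u => c * D + ix I.T u
  let hi : GV → ℕ := fun a => match a with
    | apex _ => N * D
    | v c u => c * D + if u = h then D - 1 else ix I.T u + 1
  have low : ∀ c u, c < N → valid I u → lo (v c u) ≤ N * D := by
    intro c u hc hu
    have := hix u hu
    have := (lex_lt (W := D) (a := c) (b := ix I.T u) (c := N) (d := 0) (by omega) (by omega)).2
      (Or.inl hc)
    simp only [lo]
    omega
  refine pathwidth_of_intervals _ hl lo hi (N * D) 15 (fun a ha => ?_) (fun a ha b hb e => ?_)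
    (fun i => ?_)
  · rw [hS] at ha
    cases a with
    | apex p => simp [lo, hi]
    | v c u =>
      refine ⟨?_, low c u ha.1 ha.2⟩
      have := hix u ha.2
      simp only [lo, hi]
      split_ifs <;> omega
  · rw [hS] at ha hb
    cases a with
    | apex p => exact Nat.zero_le _
    | v c a =>
      cases b with
      | apex p => exact low c a ha.1 ha.2
      | v d b =>
        obtain ⟨rfl, e⟩ := e
        have a1 := hix a ha.2
        simp only [lo, hi]
        rcases e with e | e
        · rcases Ed.cases (I := I) ⟨ha.2, hb.2, e⟩ with ⟨rfl, rfl⟩ | ⟨rfl, rfl⟩ | ⟨rfl, rfl⟩ |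
            ⟨rfl, rfl⟩ | ⟨rfl, rfl⟩ | ⟨c, -, -, rfl, rfl⟩ | ⟨t, -, rfl, rfl⟩ | ⟨t, -, rfl, rfl⟩ |
            ⟨c, -, t, -, rfl, rfl⟩ <;>
          simp only [ix, reduceCtorEq, if_true, if_false] at a1 ⊢ <;> omega
        · rcases Ed.cases (I := I) ⟨hb.2, ha.2, e⟩ with ⟨rfl, rfl⟩ | ⟨rfl, rfl⟩ | ⟨rfl, rfl⟩ |
            ⟨rfl, rfl⟩ | ⟨rfl, rfl⟩ | ⟨c, -, -, rfl, rfl⟩ | ⟨t, -, rfl, rfl⟩ | ⟨t, -, rfl, rfl⟩ |
            ⟨c, -, t, -, rfl, rfl⟩ <;>
          simp only [ix, reduceCtorEq, if_true, if_false] at a1 ⊢ <;> omega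
  · have uniq : ∀ j, ∃ y : GV, ∀ c u, valid I u → u ≠ h → lo (v c u) = j → v c u = y := by
      intro j
      by_cases hj : ∃ c u, valid I u ∧ u ≠ h ∧ lo (v c u) = j
      · obtain ⟨c, u, b1, b2, b3⟩ := hj
        refine ⟨v c u, fun c' u' d1 d2 d3 => ?_⟩
        have a1 := hix u b1
        have a2 := hix u' d1
        have a3 := lex_lt (W := D) (a := c) (b := ix I.T u) (c := c') (d := ix I.T u')
          (by omega) (by omega)
        have a4 := lex_lt (W := D) (a := c') (b := ix I.T u') (c := c) (d := ix I.T u)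
          (by omega) (by omega)
        simp only [lo] at b3 d3
        rw [show c' = c by omega, ix_inj d1 b1 d2 b2 (by omega)]
      · exact ⟨apex 0, fun c u d1 d2 d3 => absurd ⟨c, u, d1, d2, d3⟩ hj⟩
    obtain ⟨y₁, e₁⟩ := uniq i
    obtain ⟨y₂, e₂⟩ := uniq (i - 1)
    refine ⟨insert y₁ (insert y₂ (insert (v (i / D) h) ((Finset.range 13).image apex))), ?_,
      fun a ha b1 b2 => ?_⟩
    · have a1 := Finset.card_insert_le y₁ (insert y₂ (insert (v (i / D) h)
        ((Finset.range 13).image apex)))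
      have a2 := Finset.card_insert_le y₂ (insert (v (i / D) h) ((Finset.range 13).image apex))
      have a3 := Finset.card_insert_le (v (i / D) h) ((Finset.range 13).image apex)
      have a4 := Finset.card_image_le (s := Finset.range 13) (f := apex)
      rw [Finset.card_range] at a4
      omega
    · rw [hS] at ha
      simp only [Finset.mem_insert, Finset.mem_image, Finset.mem_range]
      cases a with
      | apex p => exact Or.inr (Or.inr (Or.inr ⟨p, ha, rfl⟩))
      | v c u =>
        by_cases hu : u = h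
        · subst hu
          have a1 := hix _ ha.2
          simp only [lo, hi, ix, if_true] at b1 b2 a1
          refine Or.inr (Or.inr (Or.inl ?_))
          rw [Nat.div_eq_of_lt_le (k := c) (by omega) (by rw [add_mul]; omega)]
        · have b3 : lo (v c u) = i ∨ lo (v c u) = i - 1 := by
            simp only [lo, hi, if_neg hu] at b1 b2 ⊢
            omega
          rcases b3 with b3 | b3
          · exact Or.inl (e₁ c u ha.2 hu b3)
          · exact Or.inr (Or.inl (e₂ c u ha.2 hu b3))

end Pool.Agent.MP_cfb5a8_lc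

end MrgPart3

-- ======== part 4: formerly Pool.Agent.MP_cfb5a8_lc.Reduce
section MrgPart4

/-!
The polynomial-time reduction from satisfiability of three-literal clauses to 13-page book
embeddability of graphs of pathwidth at most 15.
-/

set_option autoImplicit false

namespace Pool.Agent.MP_cfb5a8_lc

open Pool.Agent.PolyT Pool.Agent.H82 N487b59b3 HV GV

/-- The list of literal occurrences. -/
def occ (φ : List Cl) : List Lit := φ.flatMap (fun C => [C.1, C.2.1, C.2.2])

/-- The pairs of positions holding a negative and a positive literal of one variable. -/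
def negs (o : List Lit) : List (ℕ × ℕ) :=
  (idx o).flatMap (fun a => ((idx o).filter (fun b =>
    eqB (o.getD a (0, false)) ((o.getD b (0, false)).1, false) && (o.getD b (0, false)).2)).map
      (fun b => (a, b)))

/-- Remainder modulo two. -/
def m2 (t : ℕ) : ℕ := t - 2 * half t

/-- Remainder modulo four. -/
def m4 (t : ℕ) : ℕ := t - 4 * half (half t)

theorem m2_eq (t : ℕ) : m2 t = t % 2 := by unfold m2 half; omega

theorem m4_eq (t : ℕ) : m4 t = t % 4 := by unfold m4 half; omega

/-- The tested strands. -/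
def fval (ng : List (ℕ × ℕ)) (n t i : ℕ) : ℕ :=
  cond (eqB (m2 t) 0) (3 * half t + (i - 1))
    (cond (eqB i 1) (ng.getD (half t) (n, n)).1 (ng.getD (half t) (n, n)).2)

/-- A list whose length is the number of layers. -/
def layers (o : List Lit) : List ℕ :=
  (0 :: (idx o ++ idx (negs o))) ++ (0 :: (idx o ++ idx (negs o)))

/-- The instance of the gadget for a list of occurrences. -/
def inst (o : List Lit) : Inst := ⟨o.length, (layers o).length, fval (negs o) o.length⟩

theorem length_occ (φ : List Cl) : (occ φ).length = 3 * φ.length := by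
  induction φ with
  | nil => rfl
  | cons C φ ih => simp only [occ] at ih; simp [occ, ih]; omega

theorem occ_getD (φ : List Cl) (j : ℕ) (hj : j < φ.length) :
    (occ φ).getD (3 * j) (0, false) = φ[j].1 ∧ (occ φ).getD (3 * j + 1) (0, false) = φ[j].2.1 ∧
      (occ φ).getD (3 * j + 2) (0, false) = φ[j].2.2 := by
  induction φ generalizing j with
  | nil => simp at hj
  | cons C φ ih =>
    cases j with
    | zero => simp [occ]
    | succ j =>
      have := ih j (by simpa using hj)
      simp only [occ] at this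
      simpa [occ, Nat.mul_succ] using this

theorem mem_negs (o : List Lit) (a b : ℕ) : (a, b) ∈ negs o ↔ a < o.length ∧ b < o.length ∧
    o.getD a (0, false) = ((o.getD b (0, false)).1, false) ∧ (o.getD b (0, false)).2 = true := by
  simp only [negs, List.mem_flatMap, List.mem_map, List.mem_filter, mem_idx, Bool.and_eq_true,
    eqB_iff, Prod.mk.injEq]
  constructor
  · rintro ⟨a, h1, b, ⟨h2, h3⟩, rfl, rfl⟩
    exact ⟨h1, h2, h3⟩
  · rintro ⟨h1, h2, h3⟩
    exact ⟨a, h1, b, ⟨h2, h3⟩, rfl, rfl⟩

theorem fval_even (ng : List (ℕ × ℕ)) (n j i : ℕ) : fval ng n (2 * j) i = 3 * j + (i - 1) := by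
  have h1 : eqB (m2 (2 * j)) 0 = true := by rw [eqB_iff, m2_eq]; omega
  have h2 : half (2 * j) = j := by unfold half; omega
  simp [fval, h1, h2]

theorem fval_odd (ng : List (ℕ × ℕ)) (n j i : ℕ) : fval ng n (2 * j + 1) i =
    if i = 1 then (ng.getD j (n, n)).1 else (ng.getD j (n, n)).2 := by
  have h1 : eqB (m2 (2 * j + 1)) 0 = false := by rw [eqB_false_iff, m2_eq]; omega
  have h2 : half (2 * j + 1) = j := by unfold half; omega
  rw [fval, h1, h2]
  by_cases h : i = 1 <;> simp [h, eqB]

theorem pass_of_sat {φ : List Cl} (h : Sat3 φ) : ∃ b, ∀ t, Pass (inst (occ φ)) b t := by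
  obtain ⟨β, hβ⟩ := h
  refine ⟨fun o => decide (β ((occ φ).getD o (0, false)).1 = ((occ φ).getD o (0, false)).2),
    fun t => ?_⟩
  obtain ⟨j, rfl | rfl⟩ := Nat.even_or_odd' t
  · simp only [Pass, inst, fval_even, Nat.mul_mod_right, decide_true, decide_eq_true_eq]
    by_cases hj : j < φ.length
    · obtain ⟨a1, a2, a3⟩ := occ_getD φ j hj
      rcases hβ _ (List.getElem_mem hj) with h | h | h
      · exact ⟨1, by omega, by omega, Or.inr (by rw [← a1] at h; exact h)⟩
      · exact ⟨2, by omega, by omega, Or.inr (by rw [← a2] at h; exact h)⟩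
      · exact ⟨3, by omega, by omega, Or.inr (by rw [← a3] at h; exact h)⟩
    · exact ⟨1, by omega, by omega, Or.inl (by rw [length_occ]; omega)⟩
  · have h0 : decide ((2 * j + 1) % 2 = 0) = false := by simp
    simp only [Pass, inst, fval_odd, h0, decide_eq_false_iff_not]
    by_cases hj : j < (negs (occ φ)).length
    · rw [List.getD_eq_getElem _ _ hj]
      obtain ⟨-, -, a1, a2⟩ := (mem_negs _ _ _).1
        (show ((negs (occ φ))[j].1, (negs (occ φ))[j].2) ∈ _ from List.getElem_mem hj)
      cases h : β ((occ φ).getD (negs (occ φ))[j].2 (0, false)).1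
      · exact ⟨2, by omega, by omega, Or.inr (by simp only [OfNat.ofNat_ne_one, if_false]; rw [h, a2]; simp)⟩
      · exact ⟨1, by omega, by omega, Or.inr (by simp only [if_true]; rw [a1, h]; simp)⟩
    · rw [List.getD_eq_default _ _ (by omega)]
      exact ⟨1, by omega, by omega, Or.inl (by simp)⟩

theorem sat_of_pass {φ : List Cl} {b : ℕ → Bool}
    (h : ∀ t, t + 2 < (inst (occ φ)).T → Pass (inst (occ φ)) b t) : Sat3 φ := by
  classical
  have hT : (inst (occ φ)).T = 2 * (3 * φ.length + (negs (occ φ)).length + 1) := by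
    simp [inst, layers, length_occ]; omega
  let β : ℕ → Bool := fun u =>
    decide (∃ o < (occ φ).length, b o = true ∧ (occ φ).getD o (0, false) = (u, true))
  have key : ∀ o < (occ φ).length, b o = true →
      β ((occ φ).getD o (0, false)).1 = ((occ φ).getD o (0, false)).2 := by
    intro o ho hb
    cases h1 : ((occ φ).getD o (0, false)).2
    · simp only [β, decide_eq_false_iff_not]
      rintro ⟨o', ho', hb', h2⟩
      have h3 : (o, o') ∈ negs (occ φ) :=
        (mem_negs _ _ _).2 ⟨ho, ho', by rw [h2]; exact Prod.ext rfl h1, by rw [h2]⟩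
      obtain ⟨j, hj, h4⟩ := List.getElem_of_mem h3
      obtain ⟨i, -, -, h5⟩ := h (2 * j + 1) (by omega)
      have h0 : decide ((2 * j + 1) % 2 = 0) = false := by simp
      simp only [inst, fval_odd, h0, List.getD_eq_getElem _ _ hj, h4] at h5
      split_ifs at h5
      · rcases h5 with h5 | h5
        · omega
        · rw [hb] at h5; cases h5
      · rcases h5 with h5 | h5
        · omega
        · rw [hb'] at h5; cases h5
    · simp only [β, decide_eq_true_eq]
      exact ⟨o, ho, hb, by rw [← h1]⟩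
  refine ⟨β, fun C hC => ?_⟩
  obtain ⟨j, hj, rfl⟩ := List.getElem_of_mem hC
  obtain ⟨a1, a2, a3⟩ := occ_getD φ j hj
  obtain ⟨i, i1, i3, h5⟩ := h (2 * j) (by omega)
  simp only [inst, fval_even, Nat.mul_mod_right, decide_true, length_occ] at h5
  have h6 := key (3 * j + (i - 1)) (by rw [length_occ]; omega) (h5.resolve_left (by omega))
  unfold Cl.Holds
  rw [← a1, ← a2, ← a3]
  obtain rfl | rfl | rfl : i = 1 ∨ i = 2 ∨ i = 3 := by omega
  · exact Or.inl h6
  · exact Or.inr (Or.inl h6)
  · exact Or.inr (Or.inr h6)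

/-- Vertices as tuples of numbers. -/
def toT : GV → ℕ × ℕ × ℕ × ℕ
  | apex p => (0, 6, p, 0)
  | v c w => (c, 0, 0, 0)
  | v c g => (c, 1, 0, 0)
  | v c h => (c, 2, 0, 0)
  | v c (s t) => (c, 3, 0, t)
  | v c (z t) => (c, 4, 0, t)
  | v c (x d t) => (c, 5, d, t)

/-- Reading a tuple back. -/
def ofT (a : ℕ × ℕ × ℕ × ℕ) : GV :=
  match a.2.1 with
  | 0 => v a.1 w
  | 1 => v a.1 g
  | 2 => v a.1 h
  | 3 => v a.1 (s a.2.2.2)
  | 4 => v a.1 (z a.2.2.2)
  | 5 => v a.1 (x a.2.2.1 a.2.2.2)
  | _ => apex a.2.2.1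

theorem ofT_toT (a : GV) : ofT (toT a) = a := by
  rcases a with p | ⟨c, u⟩
  · rfl
  · cases u <;> rfl

instance : N487b59b3 GV :=
  ofLeftInverse toT (fun a => some (ofT a)) (fun a => congrArg some (ofT_toT a))

section

variable {α : Type} [N487b59b3 α]

@[fun_prop] theorem p_toT {f : α → GV} (hf : PolyT.Poly f) : PolyT.Poly (fun a => toT (f a)) := hf

theorem p_ofEnc {f : α → GV} {e : α → ℕ × ℕ × ℕ × ℕ} (hf : PolyT.Poly e)
    (h : ∀ a, e a = toT (f a)) : PolyT.Poly f :=
  show PolyT.Poly (fun a => toT (f a)) from hf.congr h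

/-- Named vertices. -/
def gw (c : ℕ) : GV := v c w
/-- Named vertices. -/
def gg (c : ℕ) : GV := v c g
/-- Named vertices. -/
def gh (c : ℕ) : GV := v c h
/-- Named vertices. -/
def gs (c t : ℕ) : GV := v c (s t)
/-- Named vertices. -/
def gz (c t : ℕ) : GV := v c (z t)
/-- Named vertices. -/
def gx (c d t : ℕ) : GV := v c (x d t)

@[fun_prop] theorem p_gw {f : α → ℕ} (hf : PolyT.Poly f) : PolyT.Poly (fun a => gw (f a)) :=
  p_ofEnc (e := fun a => (f a, 0, 0, 0)) (by fun_prop) (fun _ => rfl)

@[fun_prop] theorem p_gg {f : α → ℕ} (hf : PolyT.Poly f) : PolyT.Poly (fun a => gg (f a)) :=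
  p_ofEnc (e := fun a => (f a, 1, 0, 0)) (by fun_prop) (fun _ => rfl)

@[fun_prop] theorem p_gh {f : α → ℕ} (hf : PolyT.Poly f) : PolyT.Poly (fun a => gh (f a)) :=
  p_ofEnc (e := fun a => (f a, 2, 0, 0)) (by fun_prop) (fun _ => rfl)

@[fun_prop] theorem p_gs {f t : α → ℕ} (hf : PolyT.Poly f) (ht : PolyT.Poly t) :
    PolyT.Poly (fun a => gs (f a) (t a)) :=
  p_ofEnc (e := fun a => (f a, 3, 0, t a)) (by fun_prop) (fun _ => rfl)

@[fun_prop] theorem p_gz {f t : α → ℕ} (hf : PolyT.Poly f) (ht : PolyT.Poly t) :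
    PolyT.Poly (fun a => gz (f a) (t a)) :=
  p_ofEnc (e := fun a => (f a, 4, 0, t a)) (by fun_prop) (fun _ => rfl)

@[fun_prop] theorem p_gx {f d t : α → ℕ} (hf : PolyT.Poly f) (hd : PolyT.Poly d)
    (ht : PolyT.Poly t) : PolyT.Poly (fun a => gx (f a) (d a) (t a)) :=
  p_ofEnc (e := fun a => (f a, 5, d a, t a)) (by fun_prop) (fun _ => rfl)

@[fun_prop] theorem p_m2 {f : α → ℕ} (hf : PolyT.Poly f) : PolyT.Poly (fun a => m2 (f a)) := by
  unfold m2; fun_prop

@[fun_prop] theorem p_m4 {f : α → ℕ} (hf : PolyT.Poly f) : PolyT.Poly (fun a => m4 (f a)) := by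
  unfold m4; fun_prop

@[fun_prop] theorem p_fval {l : α → List (ℕ × ℕ)} {n t i : α → ℕ} (hl : PolyT.Poly l)
    (hn : PolyT.Poly n) (ht : PolyT.Poly t) (hi : PolyT.Poly i) :
    PolyT.Poly (fun a => fval (l a) (n a) (t a) (i a)) := by
  unfold fval; fun_prop

@[fun_prop] theorem p_occ {l : α → List Cl} (hl : PolyT.Poly l) :
    PolyT.Poly (fun a => occ (l a)) := by
  unfold occ; fun_prop

@[fun_prop] theorem p_negs {l : α → List Lit} (hl : PolyT.Poly l) :
    PolyT.Poly (fun a => negs (l a)) := by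
  unfold negs; fun_prop

@[fun_prop] theorem p_layers {l : α → List Lit} (hl : PolyT.Poly l) :
    PolyT.Poly (fun a => layers (l a)) := by
  unfold layers; fun_prop

end

/-- Transparency test on coded vertices. -/
def tauB (ng : List (ℕ × ℕ)) (n k d t p : ℕ) : Bool :=
  ((eqB k 1 || eqB k 2) && eqB p 12) || (eqB k 3 && eqB p (m4 t)) ||
  (eqB k 4 && (eqB p (m4 t) || eqB p (m4 (t + 1)))) ||
  (eqB k 5 && cond (ltB d 2)
    (cond (eqB (m2 (d + t)) 0) (eqB p (m4 t) || eqB p (4 + 4 * m2 t))
      (eqB p (m4 (t + 1)) || (eqB p (5 + 4 * m2 t) || (eqB p (6 + 4 * m2 t) ||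
        eqB p (7 + 4 * m2 t)))))
    (eqB p (m4 t) || (eqB p (m4 (t + 1)) || ((eqB p (4 + 4 * m2 t) && !eqB d 2) ||
      ((eqB p (5 + 4 * m2 t) && !eqB d (fval ng n t 1 + 3)) ||
      ((eqB p (6 + 4 * m2 t) && !eqB d (fval ng n t 2 + 3)) ||
      (eqB p (7 + 4 * m2 t) && !eqB d (fval ng n t 3 + 3))))))))

/-- Edge test on coded gadget vertices. -/
def edB (k d t k' d' t' : ℕ) : Bool :=
  (eqB k 0 && (eqB k' 1 || eqB k' 2 || (eqB k' 3 && eqB t' 0))) || (eqB k 1 && eqB k' 2) ||
  (eqB k 2 && (eqB k' 3 || eqB k' 5) && eqB t' 0) || (eqB k 3 && eqB k' 4 && eqB t' t) ||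
  (eqB k 4 && eqB k' 3 && eqB t' (t + 1)) || (eqB k 5 && eqB k' 5 && eqB d' d && eqB t' (t + 1))

/-- Adjacency test on coded vertices. -/
def adjT (ng : List (ℕ × ℕ)) (n : ℕ) (a b : ℕ × ℕ × ℕ × ℕ) : Bool :=
  cond (eqB a.2.1 6) (!eqB b.2.1 6 && !tauB ng n b.2.1 b.2.2.1 b.2.2.2 a.2.2.1)
    (cond (eqB b.2.1 6) (!tauB ng n a.2.1 a.2.2.1 a.2.2.2 b.2.2.1)
      (eqB a.1 b.1 && (edB a.2.1 a.2.2.1 a.2.2.2 b.2.1 b.2.2.1 b.2.2.2 ||
        edB b.2.1 b.2.2.1 b.2.2.2 a.2.1 a.2.2.1 a.2.2.2)))

theorem tauB_iff (o : List Lit) (c : ℕ) (u : HV) (p : ℕ) :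
    tauB (negs o) o.length (toT (v c u)).2.1 (toT (v c u)).2.2.1 (toT (v c u)).2.2.2 p = true ↔
      tau (inst o) u p := by
  cases u with
  | x d t =>
    simp only [toT, tauB, tau, inst, m2_eq, m4_eq]
    by_cases h1 : d < 2
    · by_cases h2 : (d + t) % 2 = 0 <;> simp [eqB, ltB, h1, h2]
    · simp [eqB, ltB, h1]
  | _ => simp [toT, tauB, tau, m4_eq, eqB]

theorem edB_iff (c c' : ℕ) (a b : HV) :
    edB (toT (v c a)).2.1 (toT (v c a)).2.2.1 (toT (v c a)).2.2.2
      (toT (v c' b)).2.1 (toT (v c' b)).2.2.1 (toT (v c' b)).2.2.2 = true ↔ E a b := by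
  cases a <;> cases b <;> simp [toT, edB, E, eqB]

theorem adjT_iff (o : List Lit) (a b : GV) :
    adjT (negs o) o.length (toT a) (toT b) = true ↔ (GG (inst o)).Adj a b := by
  have k1 : ∀ c u, eqB (toT (v c u)).2.1 6 = false := fun c u => by cases u <;> rfl
  have k2 : ∀ c u, (toT (v c u)).1 = c := fun c u => by cases u <;> rfl
  have k3 : ∀ p, eqB (toT (apex p)).2.1 6 = true := fun p => rfl
  have k4 : ∀ p, (toT (apex p)).2.2.1 = p := fun p => rfl
  show _ ↔ GA (inst o) a b
  cases a <;> cases b <;>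
    simp only [adjT, k1, k2, k3, k4, cond_true, cond_false, GA, Bool.not_true, Bool.not_false,
      Bool.true_and, Bool.false_and, Bool.false_eq_true, Bool.not_eq_true', ← Bool.not_eq_true,
      tauB_iff, Bool.and_eq_true, Bool.or_eq_true, edB_iff, eqB_iff]

/-- The list of vertices of the big graph. -/
@[irreducible] def verts (N : ℕ) (o : List Lit) : List GV :=
  ((List.range 13).map apex ++ (List.range N).flatMap (fun c =>
    gw c :: gg c :: gh c :: ((idx (0 :: layers o)).map (gs c) ++ (idx (layers o)).map (gz c) ++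
      (idx (0 :: 0 :: 0 :: idx o)).flatMap (fun d => (idx (layers o)).map (gx c d))))).dedup

theorem mem_verts (N : ℕ) (o : List Lit) (a : GV) : a ∈ verts N o ↔ validG N (inst o) a := by
  rcases a with p | ⟨c, u⟩
  · simp [verts, validG, gw, gg, gh, gs, gz, gx]
  · cases u <;> simp [verts, validG, valid, inst, gw, gg, gh, gs, gz, gx, Nat.lt_succ_iff]

theorem nodup_verts (N : ℕ) (o : List Lit) : (verts N o).Nodup := by
  unfold verts; exact List.nodup_dedup _

section

variable {α : Type} [N487b59b3 α]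

@[fun_prop] theorem p_tauB {l : α → List (ℕ × ℕ)} {n k d t p : α → ℕ} (hl : PolyT.Poly l)
    (hn : PolyT.Poly n) (hk : PolyT.Poly k) (hd : PolyT.Poly d) (ht : PolyT.Poly t)
    (hp : PolyT.Poly p) : PolyT.Poly (fun a => tauB (l a) (n a) (k a) (d a) (t a) (p a)) := by
  unfold tauB; fun_prop

@[fun_prop] theorem p_edB {k d t k' d' t' : α → ℕ} (hk : PolyT.Poly k) (hd : PolyT.Poly d)
    (ht : PolyT.Poly t) (hk' : PolyT.Poly k') (hd' : PolyT.Poly d') (ht' : PolyT.Poly t') :
    PolyT.Poly (fun a => edB (k a) (d a) (t a) (k' a) (d' a) (t' a)) := by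
  unfold edB; fun_prop

@[fun_prop] theorem p_adjT {l : α → List (ℕ × ℕ)} {n : α → ℕ} {u u' : α → ℕ × ℕ × ℕ × ℕ}
    (hl : PolyT.Poly l) (hn : PolyT.Poly n) (hu : PolyT.Poly u) (hu' : PolyT.Poly u') :
    PolyT.Poly (fun a => adjT (l a) (n a) (u a) (u' a)) := by
  unfold adjT; fun_prop

@[fun_prop] theorem p_verts (N : ℕ) {l : α → List Lit} (hl : PolyT.Poly l) :
    PolyT.Poly (fun a => verts N (l a)) := by
  unfold verts; fun_prop

end

/-- The adjacency matrix of the big graph. -/
def mat (N : ℕ) (o : List Lit) : List Bool :=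
  (verts N o).flatMap (fun a => (verts N o).map (fun b => adjT (negs o) o.length (toT a) (toT b)))

theorem poly_mat (N : ℕ) : PolyT.Poly (fun φ : List Cl => mat N (occ φ)) := by
  unfold mat
  fun_prop

/-- The graph of a formula. -/
def graphOf (N : ℕ) (φ : List Cl) : SimpleGraph (Fin (verts N (occ φ)).length) :=
  listGraph (GG (inst (occ φ))) (verts N (occ φ))

theorem adjCode_graphOf (N : ℕ) (φ : List Cl) : adjCode (graphOf N φ) = mat N (occ φ) := by
  have key : ∀ {β γ : Type} (l : List β) (F : β → γ),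
      (List.finRange l.length).map (fun i => F (l.get i)) = l.map F := by
    intro β γ l F
    conv_rhs => rw [← List.map_get_finRange l]
    rw [List.map_map]; rfl
  unfold adjCode mat
  rw [List.flatMap_def, List.flatMap_def, ← key (verts N (occ φ))]
  congr 2
  funext i
  rw [← key (verts N (occ φ))]
  congr 1
  funext j
  rw [Bool.eq_iff_iff, adjT_iff]
  exact @decide_eq_true_iff _ (_)

theorem pathwidth_graphOf (N : ℕ) (φ : List Cl) : PathwidthLE (graphOf N φ) 15 :=
  pathwidth_GG N _ (nodup_verts _ _) (mem_verts N _)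

theorem hasBook_graphOf {N : ℕ} (hN : 2 ^ 13 * 13 ^ 13 * 2 < N) (φ : List Cl) :
    HasBook (graphOf N φ) 13 ↔ Sat3 φ := by
  unfold graphOf
  rw [hasBook_listGraph _ (nodup_verts _ _)
    (List.ne_nil_of_mem ((mem_verts N _ (apex 0)).2 (by simp [validG]))) (mem_verts N _)]
  constructor
  · intro h
    obtain ⟨pos, lab, L⟩ := layout_of_book hN h
    obtain ⟨b, hb⟩ := L.sat
    exact sat_of_pass hb
  · intro h
    obtain ⟨b, hb⟩ := pass_of_sat h
    obtain ⟨pos, lab, D, L, h1, h2⟩ := exists_layout (fun t _ => hb t)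
    exact book_of_layout N L h1 h2

theorem P_eq_NP_of_polyTimeOn (h : PolyTimeOn (fun _ G => PathwidthLE G 15)) :
    N68a2faeb.P = N68a2faeb.NP := by
  obtain ⟨N, hN⟩ : ∃ N, 2 ^ 13 * 13 ^ 13 * 2 < N := ⟨_, Nat.lt_succ_self _⟩
  obtain ⟨T⟩ := h
  have h1 : PT (fun G : {G : Σ n : ℕ, SimpleGraph (Fin n) // PathwidthLE G.2 15} => adjCode G.1.2)
      (fun G => bitEncode (bookThickness G.1.2)) := ⟨⟨T.toTM2ComputableAux, T.time, T.outputsFun⟩⟩
  have h2 := h1.reindex (fun φ : List Cl => ⟨⟨_, graphOf N φ⟩, pathwidth_graphOf N φ⟩)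
  have h3 : PT bitEncode (fun φ : List Cl => adjCode (graphOf N φ)) :=
    (poly_mat N).toRaw.congr (fun φ => (adjCode_graphOf N φ).symm)
  have h4 : PolyT.Poly (fun φ : List Cl => bookThickness (graphOf N φ)) := h3.trans h2
  refine P_eq_NP_of_sat (D := fun φ => ltB (bookThickness (graphOf N φ)) 14) (by fun_prop)
    (fun φ => ?_)
  rw [ltB_iff, Nat.lt_succ_iff, bookThickness_le_iff, hasBook_graphOf hN]

end Pool.Agent.MP_cfb5a8_lc

end MrgPart4

-- ======== part 5: formerly Pool.Agent.MP_cfb5a8_lc.Upper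
section MrgPart5

/-!
If P = NP then book thickness is computable in polynomial time on all graphs.
-/

set_option autoImplicit false

namespace Pool.Agent.MP_cfb5a8_lc

open Pool.Agent.PolyT Pool.Agent.H82 N487b59b3

/-- The numbers below the integer square root of the length. -/
def rn (y : List Bool) : List ℕ := (idx y).filter (fun i => !ltB y.length ((i + 1) * (i + 1)))

theorem filter_range {L n : ℕ} (p : ℕ → Bool) (hn : n ≤ L) (hp : ∀ i < L, p i = true ↔ i < n) :
    (List.range L).filter p = List.range n := by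
  obtain ⟨k, rfl⟩ := Nat.exists_eq_add_of_le hn
  rw [List.range_add, List.filter_append, List.filter_eq_self.2, List.filter_eq_nil_iff.2]
  · simp
  · intro i hi
    simp only [List.mem_map, List.mem_range] at hi
    obtain ⟨j, hj, rfl⟩ := hi
    rw [hp _ (by omega)]
    omega
  · intro i hi
    rw [List.mem_range] at hi
    exact (hp i (by omega)).2 hi

theorem rn_eq {y : List Bool} {n j : ℕ} (h : y.length = n * n + j) (hj : j ≤ n) :
    rn y = List.range n := by
  refine filter_range _ (by nlinarith) (fun i _ => ?_)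
  simp only [Bool.not_eq_true', ltB_false_iff, h]
  constructor
  · intro h1; by_contra h2; nlinarith
  · intro h1; nlinarith

/-- Block number `b` of length `n`. -/
def blk (y : List Bool) (n b : ℕ) : List Bool := (y.drop (b * n)).take n

theorem blk_flatMap {β : Type} (l : List β) (F : β → List Bool) (R : List Bool) (n : ℕ)
    (hF : ∀ a, (F a).length = n) (b : ℕ) (hb : b < l.length) :
    blk (l.flatMap F ++ R) n b = F l[b] := by
  induction l generalizing b with
  | nil => simp at hb
  | cons a l ih =>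
    cases b with
    | zero => simp [blk, ← hF a]
    | succ b =>
      have := ih b (by simpa using hb)
      unfold blk at this ⊢
      rw [List.flatMap_cons, List.append_assoc, add_mul, one_mul, add_comm, ← List.drop_drop,
        List.drop_left' (hF a), this]
      rfl

theorem blk_fin {n : ℕ} (F : Fin n → List Bool) (R : List Bool) (m : ℕ)
    (hF : ∀ a, (F a).length = m) (b : Fin n) :
    blk ((List.finRange n).flatMap F ++ R) m b = F b := by
  rw [blk_flatMap _ F R m hF b (by simp)]
  simp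

theorem length_flatMap_fin {n : ℕ} (F : Fin n → List Bool) (m : ℕ) (hF : ∀ a, (F a).length = m) :
    ((List.finRange n).flatMap F).length = n * m := by
  simp [List.length_flatMap, hF]

/-- Number of ones. -/
def ones (l : List Bool) : ℕ := (l.filter (fun b => b)).length

/-- A number in unary, padded to length `n`. -/
def un (n a : ℕ) : List Bool := List.replicate a true ++ List.replicate (n - a) false

theorem length_un {n a : ℕ} (h : a ≤ n) : (un n a).length = n := by simp [un]; omega

theorem ones_un (n a : ℕ) : ones (un n a) = a := by simp [un, ones]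

/-- Adjacency bit. -/
def aB (y : List Bool) (n u v : ℕ) : Bool := (blk y n u).getD v false

/-- Position read off a witness. -/
def oW (w : List Bool) (n u : ℕ) : ℕ := ones (blk w n u)

/-- Page read off a witness. -/
def pW (w : List Bool) (n u v : ℕ) : ℕ := ones (blk (blk (w.drop (n * n)) (n * n) u) n v)

/-- The test that `w` describes a `j`-page embedding of the graph with matrix `y`. -/
def chk (y w : List Bool) (r : List ℕ) (n j : ℕ) : Bool :=
  r.all (fun u => r.all (fun v =>
    (eqB u v || !eqB (oW w n u) (oW w n v)) && eqB (pW w n u v) (pW w n v u) &&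
    (!aB y n u v || ltB (pW w n u v) j) &&
    r.all (fun a => r.all (fun b =>
      !(aB y n u v && aB y n a b && ltB (oW w n u) (oW w n a) && ltB (oW w n a) (oW w n v) &&
        ltB (oW w n v) (oW w n b)) || !eqB (pW w n u v) (pW w n a b)))))

/-- The verifier. -/
def verif (q : List Bool × List Bool) : Bool :=
  chk q.1 q.2 (rn q.1) (rn q.1).length (q.1.length - (rn q.1).length * (rn q.1).length)

section

variable {α : Type} [N487b59b3 α]

@[fun_prop] theorem p_rn {y : α → List Bool} (hy : PolyT.Poly y) :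
    PolyT.Poly (fun a => rn (y a)) := by
  unfold rn; fun_prop

@[fun_prop] theorem p_blk {y : α → List Bool} {n b : α → ℕ} (hy : PolyT.Poly y)
    (hn : PolyT.Poly n) (hb : PolyT.Poly b) : PolyT.Poly (fun a => blk (y a) (n a) (b a)) := by
  unfold blk; fun_prop

@[fun_prop] theorem p_ones {y : α → List Bool} (hy : PolyT.Poly y) :
    PolyT.Poly (fun a => ones (y a)) := by
  unfold ones; fun_prop

@[fun_prop] theorem p_aB {y : α → List Bool} {n u v : α → ℕ} (hy : PolyT.Poly y)
    (hn : PolyT.Poly n) (hu : PolyT.Poly u) (hv : PolyT.Poly v) :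
    PolyT.Poly (fun a => aB (y a) (n a) (u a) (v a)) := by
  unfold aB; fun_prop

@[fun_prop] theorem p_oW {y : α → List Bool} {n u : α → ℕ} (hy : PolyT.Poly y)
    (hn : PolyT.Poly n) (hu : PolyT.Poly u) : PolyT.Poly (fun a => oW (y a) (n a) (u a)) := by
  unfold oW; fun_prop

@[fun_prop] theorem p_pW {y : α → List Bool} {n u v : α → ℕ} (hy : PolyT.Poly y)
    (hn : PolyT.Poly n) (hu : PolyT.Poly u) (hv : PolyT.Poly v) :
    PolyT.Poly (fun a => pW (y a) (n a) (u a) (v a)) := by
  unfold pW; fun_prop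

theorem poly_verif : PolyT.Poly verif := by
  unfold verif chk; fun_prop

end

theorem length_adjCode {n : ℕ} (G : SimpleGraph (Fin n)) : (adjCode G).length = n * n :=
  length_flatMap_fin _ n (fun a => by simp)

theorem aB_adjCode {n : ℕ} (G : SimpleGraph (Fin n)) (R : List Bool) (u v : Fin n) :
    aB (adjCode G ++ R) n u v = true ↔ G.Adj u v := by
  unfold aB adjCode
  rw [blk_fin _ R n (fun a => by simp)]
  simp

theorem chk_iff {n : ℕ} (G : SimpleGraph (Fin n)) (R w : List Bool) (j : ℕ) :
    chk (adjCode G ++ R) w (List.range n) n j = true ↔ ∀ u v : Fin n,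
      (oW w n u = oW w n v → u = v) ∧ pW w n u v = pW w n v u ∧ (G.Adj u v → pW w n u v < j) ∧
      ∀ a b : Fin n, G.Adj u v → G.Adj a b → oW w n u < oW w n a → oW w n a < oW w n v →
        oW w n v < oW w n b → pW w n u v ≠ pW w n a b := by
  have h : ∀ p : ℕ → Bool, (List.range n).all p = true ↔ ∀ u : Fin n, p u = true := by
    intro p
    simp only [List.all_eq_true, List.mem_range]
    exact ⟨fun h u => h u u.2, fun h u hu => h ⟨u, hu⟩⟩
  simp only [chk, h, Bool.and_eq_true, Bool.or_eq_true, Bool.not_eq_true', ← Bool.not_eq_true,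
    eqB_iff, ltB_iff, aB_adjCode, Fin.val_inj]
  refine forall₂_congr fun u v => ?_
  constructor
  · rintro ⟨⟨⟨h1, h2⟩, h3⟩, h4⟩
    exact ⟨by tauto, h2, by tauto, fun a b => by have := h4 a b; tauto⟩
  · rintro ⟨h1, h2, h3, h4⟩
    exact ⟨⟨⟨by tauto, h2⟩, by tauto⟩, fun a b => by have := h4 a b; tauto⟩

theorem exists_rank {n : ℕ} (ord : Fin n → ℕ) :
    ∃ r : Fin n → ℕ, (∀ u, r u ≤ n) ∧ ∀ u v, r u < r v ↔ ord u < ord v := by
  refine ⟨fun u => (Finset.univ.filter (fun x => ord x < ord u)).card, fun u => ?_, ?_⟩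
  · simpa using Finset.card_filter_le Finset.univ (fun x => ord x < ord u)
  · intro u v
    constructor
    · intro h
      by_contra h1
      refine absurd h (not_lt.2 (Finset.card_le_card fun x hx => ?_))
      simp only [Finset.mem_filter, Finset.mem_univ, true_and] at hx ⊢
      omega
    · intro h
      refine Finset.card_lt_card ⟨fun x hx => ?_, fun h1 => ?_⟩
      · simp only [Finset.mem_filter, Finset.mem_univ, true_and] at hx ⊢
        omega
      · have := @h1 u (by simpa using h)
        simp at this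

theorem verif_iff {n : ℕ} (G : SimpleGraph (Fin n)) (R : List Bool) (hR : R.length ≤ n) :
    (∃ w : List Bool, w.length ≤ (Polynomial.X + Polynomial.X * Polynomial.X : Polynomial ℕ).eval
      (adjCode G ++ R).length ∧ verif (adjCode G ++ R, w) = true) ↔ HasBook G R.length := by
  have h0 : (adjCode G ++ R).length = n * n + R.length := by simp [length_adjCode]
  have h1 : ∀ w, verif (adjCode G ++ R, w) =
      chk (adjCode G ++ R) w (List.range n) n R.length := by
    intro w
    simp only [verif, rn_eq h0 hR, List.length_range, h0, Nat.add_sub_cancel_left]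
  simp only [h1, chk_iff]
  constructor
  · rintro ⟨w, -, h⟩
    exact ⟨fun u => oW w n u, Sym2.lift ⟨fun u v => pW w n u v, fun u v => (h u v).2.1⟩,
      fun u v => (h u v).1, fun u v => (h u v).2.2.1, fun u v a b => (h u v).2.2.2 a b⟩
  · rintro ⟨ord, page, a1, a2, a3⟩
    obtain ⟨r, r1, r2⟩ := exists_rank ord
    let row : Fin n → List Bool := fun u =>
      (List.finRange n).flatMap (fun v => un n (min (page s(u, v)) n))
    have hrow : ∀ u, (row u).length = n * n := fun u =>
      length_flatMap_fin _ n (fun a => length_un (min_le_right _ _))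
    have hl := length_flatMap_fin (fun u => un n (r u)) n (fun a => length_un (r1 a))
    let w := (List.finRange n).flatMap (fun u => un n (r u)) ++ (List.finRange n).flatMap row
    have e1 : ∀ u : Fin n, oW w n u = r u := fun u => by
      unfold oW
      rw [blk_fin _ _ n (fun a => length_un (r1 a)), ones_un]
    have e2 : ∀ u v : Fin n, pW w n u v = min (page s(u, v)) n := fun u v => by
      unfold pW
      rw [List.drop_left' hl, ← List.append_nil ((List.finRange n).flatMap row),
        blk_fin _ _ _ hrow, ← List.append_nil (row u),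
        blk_fin _ _ n (fun a => length_un (min_le_right _ _)), ones_un]
    refine ⟨w, ?_, fun u v => ⟨fun h => ?_, ?_, fun h => ?_, fun a b h h' => ?_⟩⟩
    · simp only [w, List.length_append, hl, length_flatMap_fin row _ hrow, length_adjCode,
        Polynomial.eval_add, Polynomial.eval_mul, Polynomial.eval_X]
      have b1 : n ≤ n * n + R.length := by nlinarith
      have b2 : n * (n * n) ≤ (n * n + R.length) * (n * n + R.length) :=
        Nat.mul_le_mul b1 (Nat.le_add_right _ _)
      omega
    · rw [e1, e1] at h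
      have b1 := r2 u v
      have b2 := r2 v u
      exact a1 (by omega)
    · rw [e2, e2, Sym2.eq_swap]
    · have := a2 u v h
      rw [e2]; omega
    · rw [e1, e1, e1, e1, e2, e2, r2, r2, r2]
      intro b1 b2 b3
      have b4 := a3 u v a b h h' b1 b2 b3
      have b5 := a2 u v h
      have b6 := a2 a b h'
      omega

theorem polyTimeOn_of_P_eq_NP (h : N68a2faeb.P = N68a2faeb.NP)
    (C : ∀ n : ℕ, SimpleGraph (Fin n) → Prop) : PolyTimeOn C := by
  classical
  let L : List Bool → Bool := fun y => decide (∃ w : List Bool,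
    w.length ≤ (Polynomial.X + Polynomial.X * Polynomial.X : Polynomial ℕ).eval y.length ∧
      verif (y, w) = true)
  have hL : L ∈ N68a2faeb.NP :=
    ⟨_, verif, (poly_iff _).1 poly_verif, fun y => decide_eq_true_iff⟩
  rw [← h] at hL
  have hL' : PolyT.Poly L := (poly_iff _).2 hL
  let D : List Bool → ℕ := fun x =>
    ((rn x).filter (fun j => !L (x ++ ((rn x).take j).map (fun _ => true)))).length
  have hD : PolyT.Poly D := by
    unfold D
    clear_value L
    fun_prop
  have hv : PolyT.Poly (fun y : Raw => y.val) :=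
    PolyT.Poly.bitsOf (PolyT.Poly.id : PolyT.Poly (fun y : Raw => y))
  have h1 := PT.reindex (hD.comp hv)
    (fun G : {G : Σ n : ℕ, SimpleGraph (Fin n) // C G.1 G.2} => Raw.mk (adjCode G.1.2))
  have h2 : ∀ n (G : SimpleGraph (Fin n)), D (adjCode G) = bookThickness G := by
    intro n G
    have e : rn (adjCode G) = List.range n := rn_eq (j := 0) (length_adjCode G) (Nat.zero_le _)
    simp only [D, e]
    rw [filter_range (n := bookThickness G) _ ((bookThickness_le_iff G n).2 (hasBook_self G)),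
      List.length_range]
    intro j hj
    have hl : (((List.range n).take j).map (fun _ => true)).length = j := by simp; omega
    simp only [L, Bool.not_eq_true', decide_eq_false_iff_not]
    rw [verif_iff G _ (by omega), hl, ← bookThickness_le_iff, not_le]
  obtain ⟨T⟩ := h1.congr (G := fun G => bitEncode (bookThickness G.1.2))
    (fun G => congrArg bitEncode (h2 _ _))
  exact ⟨⟨T.toTM2ComputableAux, T.time, T.outputsFun⟩⟩

end Pool.Agent.MP_cfb5a8_lc

end MrgPart5

-- marker of a merged file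
example : 731051 + 269034 = 731051 + 269034 := rfl
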